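import Mathlib

/-! Abel means of bounded sequences. -/

set_option autoImplicit false

open Filter Topology Finset

namespace Pool.Agent.R310.FAD

/-- bounded sequences -/
def Bdd (w : ℕ → ℂ) : Prop := ∃ C : ℝ, ∀ n, ‖w n‖ ≤ C

/-- the Abel mean of `w` at `r` -/
noncomputable def ab (w : ℕ → ℂ) (r : ℝ) : ℂ := (1 - (r : ℂ)) * ∑' n : ℕ, w n * (r : ℂ) ^ n

/-- the Abel means of `w` tend to `L` -/
def Ab (w : ℕ → ℂ) (L : ℂ) : Prop := Tendsto (ab w) (𝓝[<] (1 : ℝ)) (𝓝 L)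

lemma ev_unit : ∀ᶠ r : ℝ in 𝓝[<] (1 : ℝ), 0 ≤ r ∧ r < 1 := by
  have h1 : ∀ᶠ r : ℝ in 𝓝[<] (1 : ℝ), r < 1 := self_mem_nhdsWithin
  have h2 : ∀ᶠ r : ℝ in 𝓝[<] (1 : ℝ), 0 < r :=
    nhdsWithin_le_nhds (lt_mem_nhds (by norm_num : (0 : ℝ) < 1))
  filter_upwards [h1, h2] with r h1 h2
  exact ⟨h2.le, h1⟩

lemma summ {w : ℕ → ℂ} (hw : Bdd w) {r : ℝ} (h0 : 0 ≤ r) (h1 : r < 1) :
    Summable (fun n : ℕ => w n * (r : ℂ) ^ n) := by
  obtain ⟨C, hC⟩ := hw
  refine Summable.of_norm_bounded (g := fun n => C * r ^ n)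
    ((summable_geometric_of_lt_one h0 h1).mul_left C) fun n => ?_
  rw [norm_mul, norm_pow, Complex.norm_real, Real.norm_of_nonneg h0]
  exact mul_le_mul_of_nonneg_right (hC n) (pow_nonneg h0 n)

lemma ab_bound {w : ℕ → ℂ} {C : ℝ} (hC : ∀ n, ‖w n‖ ≤ C) {r : ℝ} (h0 : 0 ≤ r) (h1 : r < 1) :
    ‖ab w r‖ ≤ C := by
  unfold ab
  have h2 : ‖∑' n : ℕ, w n * (r : ℂ) ^ n‖ ≤ C * (1 - r)⁻¹ := by
    refine tsum_of_norm_bounded ((hasSum_geometric_of_lt_one h0 h1).mul_left C) fun n => ?_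
    rw [norm_mul, norm_pow, Complex.norm_real, Real.norm_of_nonneg h0]
    exact mul_le_mul_of_nonneg_right (hC n) (pow_nonneg h0 n)
  rw [norm_mul]
  have h3 : ‖(1 - (r : ℂ))‖ = 1 - r := by
    rw [← Complex.ofReal_one, ← Complex.ofReal_sub, Complex.norm_real, Real.norm_of_nonneg (by linarith)]
  rw [h3]
  have h4 : 0 < 1 - r := by linarith
  calc (1 - r) * ‖∑' n : ℕ, w n * (r : ℂ) ^ n‖ ≤ (1 - r) * (C * (1 - r)⁻¹) := by gcongr
    _ = C := by field_simp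

lemma ab_add {w v : ℕ → ℂ} (hw : Bdd w) (hv : Bdd v) {r : ℝ} (h0 : 0 ≤ r) (h1 : r < 1) :
    ab (fun n => w n + v n) r = ab w r + ab v r := by
  unfold ab
  rw [← mul_add, ← (summ hw h0 h1).tsum_add (summ hv h0 h1)]
  congr 1
  exact tsum_congr fun n => by ring

lemma ab_sub {w v : ℕ → ℂ} (hw : Bdd w) (hv : Bdd v) {r : ℝ} (h0 : 0 ≤ r) (h1 : r < 1) :
    ab (fun n => w n - v n) r = ab w r - ab v r := by
  unfold ab
  rw [← mul_sub, ← (summ hw h0 h1).tsum_sub (summ hv h0 h1)]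
  congr 1
  exact tsum_congr fun n => by ring

lemma ab_smul (c : ℂ) (w : ℕ → ℂ) (r : ℝ) : ab (fun n => c * w n) r = c * ab w r := by
  unfold ab
  have h : (∑' n : ℕ, c * w n * (r : ℂ) ^ n) = c * ∑' n : ℕ, w n * (r : ℂ) ^ n := by
    rw [← tsum_mul_left]
    exact tsum_congr fun n => by ring
  rw [h]; ring

lemma Bdd.add {w v : ℕ → ℂ} (hw : Bdd w) (hv : Bdd v) : Bdd (fun n => w n + v n) := by
  obtain ⟨C, hC⟩ := hw
  obtain ⟨D, hD⟩ := hv
  exact ⟨C + D, fun n => (norm_add_le _ _).trans (add_le_add (hC n) (hD n))⟩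

lemma Bdd.sub {w v : ℕ → ℂ} (hw : Bdd w) (hv : Bdd v) : Bdd (fun n => w n - v n) := by
  obtain ⟨C, hC⟩ := hw
  obtain ⟨D, hD⟩ := hv
  exact ⟨C + D, fun n => (norm_sub_le _ _).trans (add_le_add (hC n) (hD n))⟩

lemma Bdd.mul {w v : ℕ → ℂ} (hw : Bdd w) (hv : Bdd v) : Bdd (fun n => w n * v n) := by
  obtain ⟨C, hC⟩ := hw
  obtain ⟨D, hD⟩ := hv
  refine ⟨|C| * |D|, fun n => ?_⟩
  rw [norm_mul]
  exact mul_le_mul ((hC n).trans (le_abs_self C)) ((hD n).trans (le_abs_self D)) (norm_nonneg _) (abs_nonneg _)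

lemma Bdd.const (c : ℂ) : Bdd (fun _ => c) := ⟨‖c‖, fun _ => le_rfl⟩

lemma Bdd.smul {w : ℕ → ℂ} (c : ℂ) (hw : Bdd w) : Bdd (fun n => c * w n) := (Bdd.const c).mul hw

lemma Bdd.sum {ι : Type*} (F : Finset ι) {w : ι → ℕ → ℂ} (h : ∀ i ∈ F, Bdd (w i)) :
    Bdd (fun n => ∑ i ∈ F, w i n) := by
  classical
  induction F using Finset.induction_on with
  | empty => exact ⟨0, fun n => by simp⟩
  | insert a F ha ih =>
    have h1 := (h a (mem_insert_self a F)).add (ih fun i hi => h i (mem_insert_of_mem hi))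
    refine (by simpa [sum_insert ha] using h1)

lemma Bdd.pow {z : ℂ} (hz : ‖z‖ ≤ 1) : Bdd (fun n => z ^ n) :=
  ⟨1, fun n => by rw [norm_pow]; exact pow_le_one₀ (norm_nonneg _) hz⟩

lemma Ab.add {w v : ℕ → ℂ} {L M : ℂ} (hw : Bdd w) (hv : Bdd v) (h1 : Ab w L) (h2 : Ab v M) :
    Ab (fun n => w n + v n) (L + M) := by
  refine (Tendsto.add h1 h2).congr' ?_
  filter_upwards [ev_unit] with r hr
  exact (ab_add hw hv hr.1 hr.2).symm

lemma Ab.sub {w v : ℕ → ℂ} {L M : ℂ} (hw : Bdd w) (hv : Bdd v) (h1 : Ab w L) (h2 : Ab v M) :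
    Ab (fun n => w n - v n) (L - M) := by
  refine (Tendsto.sub h1 h2).congr' ?_
  filter_upwards [ev_unit] with r hr
  exact (ab_sub hw hv hr.1 hr.2).symm

lemma Ab.smul {w : ℕ → ℂ} {L : ℂ} (c : ℂ) (h : Ab w L) : Ab (fun n => c * w n) (c * L) := by
  refine (Tendsto.const_mul c h).congr fun r => ?_
  exact (ab_smul c w r).symm

lemma Ab.zero : Ab (fun _ => 0) 0 := by
  have : ab (fun _ => (0 : ℂ)) = fun _ => 0 := by
    funext r; unfold ab; simp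
  unfold Ab; rw [this]; exact tendsto_const_nhds

lemma Ab.sum {ι : Type*} (F : Finset ι) {w : ι → ℕ → ℂ} {L : ι → ℂ} (hb : ∀ i ∈ F, Bdd (w i))
    (h : ∀ i ∈ F, Ab (w i) (L i)) : Ab (fun n => ∑ i ∈ F, w i n) (∑ i ∈ F, L i) := by
  classical
  induction F using Finset.induction_on with
  | empty => simpa using Ab.zero
  | insert a F ha ih =>
    have h1 := (h a (mem_insert_self a F)).add (hb a (mem_insert_self a F))
      (Bdd.sum F fun i hi => hb i (mem_insert_of_mem hi))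
      (ih (fun i hi => hb i (mem_insert_of_mem hi)) fun i hi => h i (mem_insert_of_mem hi))
    simpa [sum_insert ha] using h1

lemma Ab.unique {w : ℕ → ℂ} {L M : ℂ} (h1 : Ab w L) (h2 : Ab w M) : L = M :=
  tendsto_nhds_unique h1 h2

lemma Ab.bound {w : ℕ → ℂ} {L : ℂ} {C : ℝ} (h : Ab w L) (hC : ∀ n, ‖w n‖ ≤ C) : ‖L‖ ≤ C := by
  refine le_of_tendsto h.norm ?_
  filter_upwards [ev_unit] with r hr
  exact ab_bound hC hr.1 hr.2

lemma Ab.pow_ne {z : ℂ} (hz : ‖z‖ ≤ 1) (h1 : z ≠ 1) : Ab (fun n => z ^ n) 0 := by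
  have h2 : Tendsto (fun r : ℝ => (1 - (r : ℂ)) * (1 - z * r)⁻¹) (𝓝[<] (1 : ℝ))
      (𝓝 ((1 - ((1 : ℝ) : ℂ)) * (1 - z * ((1 : ℝ) : ℂ))⁻¹)) := by
    refine Tendsto.mono_left ?_ nhdsWithin_le_nhds
    have hc : ContinuousAt (fun r : ℝ => (1 - (r : ℂ)) * (1 - z * r)⁻¹) 1 := by
      refine ContinuousAt.mul (by fun_prop) (ContinuousAt.inv₀ (by fun_prop) ?_)
      rw [Complex.ofReal_one, mul_one, sub_ne_zero]
      exact h1.symm
    exact hc
  have h3 : ((1 : ℂ) - ((1 : ℝ) : ℂ)) * (1 - z * ((1 : ℝ) : ℂ))⁻¹ = 0 := by simp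
  rw [h3] at h2
  refine h2.congr' ?_
  filter_upwards [ev_unit] with r hr
  unfold ab
  congr 1
  have h4 : ‖z * r‖ < 1 := by
    rw [norm_mul, Complex.norm_real, Real.norm_of_nonneg hr.1]
    calc ‖z‖ * r ≤ 1 * r := mul_le_mul_of_nonneg_right hz hr.1
      _ = r := one_mul r
      _ < 1 := hr.2
  rw [← tsum_geometric_of_norm_lt_one h4]
  exact tsum_congr fun n => by rw [mul_pow]

lemma Ab.one : Ab (fun _ => 1) 1 := by
  have h2 : Tendsto (fun _ : ℝ => (1 : ℂ)) (𝓝[<] (1 : ℝ)) (𝓝 1) := tendsto_const_nhds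
  refine h2.congr' ?_
  filter_upwards [ev_unit] with r hr
  unfold ab
  have h4 : ‖(r : ℂ)‖ < 1 := by
    rw [Complex.norm_real, Real.norm_of_nonneg hr.1]; exact hr.2
  have h5 : (∑' n : ℕ, (1 : ℂ) * (r : ℂ) ^ n) = (1 - (r : ℂ))⁻¹ := by
    rw [← tsum_geometric_of_norm_lt_one h4]
    exact tsum_congr fun n => by rw [one_mul]
  rw [h5, mul_inv_cancel₀]
  rw [sub_ne_zero]
  intro h
  have : (1 : ℝ) = r := by exact_mod_cast h
  linarith [hr.2]

/-- geometrically decaying sequences have Abel mean zero -/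
lemma Ab.geom {w : ℕ → ℂ} {C θ : ℝ} (hθ0 : 0 ≤ θ) (hθ : θ < 1) (hw : ∀ n, ‖w n‖ ≤ C * θ ^ n) : Ab w 0 := by
  have hC : 0 ≤ C := by have := (norm_nonneg _).trans (hw 0); simpa using this
  have h1 : Tendsto (fun r : ℝ => (1 - r) * (C * (1 - θ)⁻¹)) (𝓝[<] (1 : ℝ)) (𝓝 0) := by
    refine Tendsto.mono_left ?_ nhdsWithin_le_nhds
    have : Tendsto (fun r : ℝ => (1 - r) * (C * (1 - θ)⁻¹)) (𝓝 1) (𝓝 ((1 - 1) * (C * (1 - θ)⁻¹))) :=
      (continuous_const.sub continuous_id).mul continuous_const |>.tendsto 1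
    simpa using this
  refine squeeze_zero_norm' ?_ h1
  filter_upwards [ev_unit] with r hr
  unfold ab
  rw [norm_mul]
  have h3 : ‖(1 - (r : ℂ))‖ = 1 - r := by
    rw [← Complex.ofReal_one, ← Complex.ofReal_sub, Complex.norm_real, Real.norm_of_nonneg (by linarith [hr.2])]
  rw [h3]
  have h4 : ‖∑' n : ℕ, w n * (r : ℂ) ^ n‖ ≤ C * (1 - θ)⁻¹ := by
    refine tsum_of_norm_bounded ((hasSum_geometric_of_lt_one hθ0 hθ).mul_left C) fun n => ?_
    rw [norm_mul, norm_pow, Complex.norm_real, Real.norm_of_nonneg hr.1]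
    calc ‖w n‖ * r ^ n ≤ ‖w n‖ * 1 := by
          apply mul_le_mul_of_nonneg_left _ (norm_nonneg _)
          exact pow_le_one₀ hr.1 hr.2.le
      _ = ‖w n‖ := mul_one _
      _ ≤ C * θ ^ n := hw n
  have h5 : 0 ≤ 1 - r := by linarith [hr.2]
  gcongr

/-- existence of the Abel mean of a uniform limit -/
lemma Ab.exists_of_approx {w : ℕ → ℂ} (hw : Bdd w)
    (h : ∀ ε : ℝ, 0 < ε → ∃ v : ℕ → ℂ, ∃ M : ℂ, Bdd v ∧ (∀ n, ‖w n - v n‖ ≤ ε) ∧ Ab v M) :
    ∃ L, Ab w L := by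
  have hc : Cauchy (map (ab w) (𝓝[<] (1 : ℝ))) := by
    rw [Metric.cauchy_iff]
    refine ⟨inferInstance, fun ε hε => ?_⟩
    obtain ⟨v, M, hv, hwv, hM⟩ := h (ε / 8) (by positivity)
    have h1 : ∀ᶠ r in 𝓝[<] (1 : ℝ), dist (ab v r) M < ε / 8 :=
      (Metric.tendsto_nhds.1 hM) (ε / 8) (by positivity)
    refine ⟨Metric.ball M (ε / 2), ?_, ?_⟩
    · rw [Filter.mem_map]
      filter_upwards [h1, ev_unit] with r hr1 hr2
      rw [Set.mem_preimage, Metric.mem_ball]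
      have h2 := ab_bound hwv hr2.1 hr2.2
      rw [ab_sub hw hv hr2.1 hr2.2] at h2
      calc dist (ab w r) M ≤ dist (ab w r) (ab v r) + dist (ab v r) M := dist_triangle _ _ _
        _ ≤ ε / 8 + ε / 8 := add_le_add (by rwa [dist_eq_norm]) hr1.le
        _ < ε / 2 := by linarith
    · intro x hx y hy
      rw [Metric.mem_ball] at hx hy
      calc dist x y ≤ dist x M + dist y M := dist_triangle_right _ _ _
        _ < ε := by linarith
  obtain ⟨L, hL⟩ := CompleteSpace.complete hc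
  exact ⟨L, hL⟩

lemma Ab.congr' {w v : ℕ → ℂ} {L : ℂ} (h : Ab w L) (hw : Bdd w) (N : ℕ) (hv : ∀ n, N ≤ n → w n = v n) :
    Ab v L := by
  have h1 : Ab (fun n => v n - w n) 0 := by
    refine Ab.geom (C := (∑ n ∈ range N, ‖v n - w n‖) * 2 ^ N) (θ := 1 / 2) (by norm_num) (by norm_num)
      fun n => ?_
    rcases le_or_gt N n with hn | hn
    · show ‖v n - w n‖ ≤ _
      rw [← hv n hn, sub_self, norm_zero]
      have : 0 ≤ ∑ n ∈ range N, ‖v n - w n‖ := sum_nonneg fun _ _ => norm_nonneg _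
      positivity
    · have h2 : ‖v n - w n‖ ≤ ∑ n ∈ range N, ‖v n - w n‖ :=
        single_le_sum (f := fun n => ‖v n - w n‖) (fun _ _ => norm_nonneg _) (mem_range.2 hn)
      have h3 : (1 : ℝ) ≤ 2 ^ N * (1 / 2) ^ n := by
        rw [one_div, inv_pow, ← div_eq_mul_inv, one_le_div (by positivity)]
        exact pow_le_pow_right₀ (by norm_num) hn.le
      calc ‖v n - w n‖ ≤ ∑ n ∈ range N, ‖v n - w n‖ := h2
        _ = (∑ n ∈ range N, ‖v n - w n‖) * 1 := (mul_one _).symm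
        _ ≤ (∑ n ∈ range N, ‖v n - w n‖) * (2 ^ N * (1 / 2) ^ n) := by
            apply mul_le_mul_of_nonneg_left h3
            exact sum_nonneg fun _ _ => norm_nonneg _
        _ = _ := by ring
  have hb : Bdd (fun n => v n - w n) := by
    refine ⟨∑ n ∈ range N, ‖v n - w n‖, fun n => ?_⟩
    rcases le_or_gt N n with hn | hn
    · show ‖v n - w n‖ ≤ _
      rw [← hv n hn, sub_self, norm_zero]
      exact sum_nonneg fun _ _ => norm_nonneg _
    · exact single_le_sum (f := fun n => ‖v n - w n‖) (fun _ _ => norm_nonneg _) (mem_range.2 hn)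
  have h2 := h.add hw hb h1
  simpa using h2

end Pool.Agent.R310.FAD
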