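import Mathlib

/-! FAD-systems and their zeta functions. -/

set_option autoImplicit false

open Filter Topology

namespace Pool.Agent.R310.FAD

/-- `f_n`, the number of fixed points of the `n`-th iterate of `f` -/
noncomputable def fixCount {X : Type*} (f : X → X) (n : ℕ) : ℕ := {x : X | f^[n] x = x}.ncard

/-- `(a n)` for `n ≥ 1` is a gcd sequence with period `N ≥ 1`: `a n = a (gcd n N)` for all `n ≥ 1` -/
def GcdSeq (a : ℕ → ℝ) (N : ℕ) : Prop := 1 ≤ N ∧ ∀ n, 1 ≤ n → a n = a (Nat.gcd n N)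

/-- `(X, f)` is a FAD-system: every `f_n` (`n ≥ 1`) is finite, and
`f_n = |det (A ^ n - 1)| * c ^ n * r_n * ∏ p ∈ S, |n|_p ^ (s_{p,n}) * p ^ (- t_{p,n} * |n|_p⁻¹)`. -/
def IsFAD {X : Type*} (f : X → X) : Prop :=
  (∀ n, 1 ≤ n → {x : X | f^[n] x = x}.Finite) ∧
  ∃ (d : ℕ) (A : Matrix (Fin d) (Fin d) ℤ) (S : Finset ℕ) (c : ℝ) (r : ℕ → ℝ) (s t : ℕ → ℕ → ℝ),
    (∀ p ∈ S, p.Prime) ∧ 0 < c ∧ (∀ n, 1 ≤ n → 0 < r n) ∧ (∃ N, GcdSeq r N) ∧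
    (∀ p ∈ S, (∀ n, 1 ≤ n → 0 ≤ s p n ∧ 0 ≤ t p n) ∧
      (∃ N, GcdSeq (s p) N ∧ Nat.Coprime N p) ∧ (∃ N, GcdSeq (t p) N ∧ Nat.Coprime N p)) ∧
    ∀ n, 1 ≤ n → (fixCount f n : ℝ) = |((A ^ n - 1).det : ℝ)| * c ^ n * r n *
      ∏ p ∈ S, (((padicNorm p n : ℚ) : ℝ) ^ (s p n) *
        (p : ℝ) ^ (-(t p n) * ((padicNorm p n : ℚ) : ℝ)⁻¹))

/-- the Artin-Mazur zeta function `exp (∑_{n ≥ 1} f_n z ^ n / n)`, as a function of `z` -/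
noncomputable def zeta {X : Type*} (f : X → X) (z : ℂ) : ℂ :=
  Complex.exp (∑' n : ℕ, (fixCount f (n + 1) : ℂ) / (n + 1 : ℂ) * z ^ (n + 1))

/-- `Λ = exp (limsup (log f_n) / n)` -/
noncomputable def Lam {X : Type*} (f : X → X) : ℝ :=
  Real.exp (limsup (fun n : ℕ => Real.log (fixCount f n) / n) atTop)

/-- some power `zeta ^ k`, `k ≥ 1`, is a rational function: `Q * zeta ^ k = P` near `0` for
polynomials `P, Q` with `Q ≠ 0` -/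
def RootRational {X : Type*} (f : X → X) : Prop :=
  ∃ k : ℕ, 1 ≤ k ∧ ∃ P Q : Polynomial ℂ, Q ≠ 0 ∧
    ∀ᶠ z in 𝓝 (0 : ℂ), Q.eval z * zeta f z ^ k = P.eval z

/-- `F` is analytic in the disc `‖z‖ < R`, and for no open set `U` meeting the circle `‖z‖ = R` is
there a meromorphic function on `U` that agrees with `F` on `U ∩ {‖z‖ < R}`. -/
def StrongNaturalBoundary (F : ℂ → ℂ) (R : ℝ) : Prop :=
  AnalyticOnNhd ℂ F (Metric.ball 0 R) ∧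
  ∀ U : Set ℂ, IsOpen U → (∃ z ∈ U, ‖z‖ = R) →
    ¬ ∃ g : ℂ → ℂ, MeromorphicOn g U ∧ ∀ z ∈ U, ‖z‖ < R → g z = F z

end Pool.Agent.R310.FAD
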