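import Pool.Agent.R310.FAD.Core
import Pool.Agent.R310.FAD.Def

/-! The gcd / p-adic factor of a FAD sequence is a uniform limit of gcd sequences. -/

set_option autoImplicit false

open Filter Topology Finset

namespace Pool.Agent.R310.FAD

lemma Appr.mul {a b : ℕ → ℂ} {M : ℕ} (hM : 1 ≤ M) (ha : Appr a M) (hb : Appr b M) :
    Appr (fun n => a n * b n) M := by
  obtain ⟨A, hA⟩ := ha.bdd hM
  obtain ⟨B, hB⟩ := hb.bdd hM
  have hA0 : 0 ≤ A := (norm_nonneg _).trans (hA 0)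
  have hB0 : 0 ≤ B := (norm_nonneg _).trans (hB 0)
  intro ε hε
  obtain ⟨V1, hV1⟩ := ha (ε / (2 * (B + 1))) (by positivity)
  obtain ⟨V2, hV2⟩ := hb (ε / (2 * (A + 1))) (by positivity)
  refine ⟨max V1 V2, fun W hW n hn => ?_⟩
  have h1 := hV1 W (le_trans (le_max_left _ _) hW) n hn
  have h2 := hV2 W (le_trans (le_max_right _ _) hW) n hn
  set m := Nat.gcd n (M ^ W)
  dsimp only
  have h3 : a n * b n - a m * b m = (a n - a m) * b n + a m * (b n - b m) := by ring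
  rw [h3]
  calc ‖(a n - a m) * b n + a m * (b n - b m)‖ ≤ ‖(a n - a m) * b n‖ + ‖a m * (b n - b m)‖ := norm_add_le _ _
    _ = ‖a n - a m‖ * ‖b n‖ + ‖a m‖ * ‖b n - b m‖ := by rw [norm_mul, norm_mul]
    _ ≤ (ε / (2 * (B + 1))) * (B + 1) + (A + 1) * (ε / (2 * (A + 1))) := by
        gcongr
        · linarith [hB n]
        · linarith [hA m]
    _ = ε := by field_simp; ring

lemma Appr.one (M : ℕ) : Appr (fun _ => 1) M := fun ε hε => ⟨0, fun W _ n _ => by simpa using hε.le⟩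

lemma Appr.prod {ι : Type*} (F : Finset ι) {a : ι → ℕ → ℂ} {M : ℕ} (hM : 1 ≤ M)
    (h : ∀ i ∈ F, Appr (a i) M) : Appr (fun n => ∏ i ∈ F, a i n) M := by
  classical
  induction F using Finset.induction_on with
  | empty => simpa using Appr.one M
  | insert x F hx ih =>
    have h1 := (h x (mem_insert_self x F)).mul hM (ih fun i hi => h i (mem_insert_of_mem hi))
    simpa [prod_insert hx] using h1

lemma gcd_gcd_pow {N M : ℕ} (hNM : N ∣ M) {W : ℕ} (hW : 1 ≤ W) (n : ℕ) :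
    Nat.gcd (Nat.gcd n (M ^ W)) N = Nat.gcd n N := by
  rw [Nat.gcd_assoc]
  congr 1
  exact Nat.gcd_eq_right (hNM.trans (dvd_pow_self M (by omega)))

lemma gcd_pow_pos {M : ℕ} (hM : 1 ≤ M) (W n : ℕ) : 1 ≤ Nat.gcd n (M ^ W) :=
  Nat.gcd_pos_of_pos_right n (Nat.one_le_pow W M hM)

lemma GcdSeq.eq_gcd {a : ℕ → ℝ} {N M : ℕ} (h : GcdSeq a N) (hM : 1 ≤ M) (hNM : N ∣ M) {W : ℕ}
    (hW : 1 ≤ W) {n : ℕ} (hn : 1 ≤ n) : a (Nat.gcd n (M ^ W)) = a n := by
  rw [h.2 _ (gcd_pow_pos hM W n), gcd_gcd_pow hNM hW, ← h.2 n hn]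

lemma Appr.of_gcdSeq {a : ℕ → ℝ} {N M : ℕ} (h : GcdSeq a N) (hM : 1 ≤ M) (hNM : N ∣ M) :
    Appr (fun n => (a n : ℂ)) M := by
  intro ε hε
  refine ⟨1, fun W hW n hn => ?_⟩
  dsimp only
  rw [h.eq_gcd hM hNM hW hn, sub_self, norm_zero]
  exact hε.le

/-- the factor attached to the prime `p` -/
noncomputable def ep (p : ℕ) (s t : ℕ → ℝ) (n : ℕ) : ℝ :=
  ((padicNorm p n : ℚ) : ℝ) ^ (s n) * (p : ℝ) ^ (-(t n) * ((padicNorm p n : ℚ) : ℝ)⁻¹)

lemma ep_eq {p : ℕ} (hp : p.Prime) (s t : ℕ → ℝ) {n : ℕ} (hn : 1 ≤ n) :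
    ep p s t n = (p : ℝ) ^ (-((padicValNat p n : ℝ) * s n + t n * (p : ℝ) ^ (padicValNat p n))) := by
  have : Fact p.Prime := ⟨hp⟩
  have hp0 : (0 : ℝ) < p := by exact_mod_cast hp.pos
  have h1 : ((padicNorm p n : ℚ) : ℝ) = (p : ℝ) ^ (-(padicValNat p n : ℝ)) := by
    have h0 : padicNorm p (n : ℚ) = (p : ℚ) ^ (-(padicValNat p n : ℤ)) := by
      rw [padicNorm.eq_zpow_of_nonzero (by exact_mod_cast (by omega : n ≠ 0)), padicValRat.of_nat]
    rw [h0, Rat.cast_zpow, Rat.cast_natCast, ← Real.rpow_intCast, Int.cast_neg, Int.cast_natCast]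
  have h2 : ((padicNorm p n : ℚ) : ℝ)⁻¹ = (p : ℝ) ^ (padicValNat p n) := by
    rw [h1, Real.rpow_neg hp0.le, inv_inv, Real.rpow_natCast]
  unfold ep
  rw [h2, h1, ← Real.rpow_mul hp0.le, ← Real.rpow_add hp0]
  congr 1
  ring

lemma ep_pos {p : ℕ} (hp : p.Prime) (s t : ℕ → ℝ) {n : ℕ} (hn : 1 ≤ n) : 0 < ep p s t n := by
  rw [ep_eq hp s t hn]
  exact Real.rpow_pos_of_pos (by exact_mod_cast hp.pos) _

lemma ep_le_one {p : ℕ} (hp : p.Prime) {s t : ℕ → ℝ} {n : ℕ} (hn : 1 ≤ n) (hs : 0 ≤ s n)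
    (ht : 0 ≤ t n) : ep p s t n ≤ 1 := by
  rw [ep_eq hp s t hn]
  refine Real.rpow_le_one_of_one_le_of_nonpos (by exact_mod_cast hp.one_le) ?_
  have : (0 : ℝ) < p := by exact_mod_cast hp.pos
  have h1 : 0 ≤ (padicValNat p n : ℝ) * s n := by positivity
  have h2 : 0 ≤ t n * (p : ℝ) ^ (padicValNat p n) := by positivity
  linarith

/-- decay when the valuation is large -/
lemma ep_small {p : ℕ} (hp : p.Prime) {s t : ℕ → ℝ} {n : ℕ} (hn : 1 ≤ n) (hs : 0 ≤ s n)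
    (ht : 0 ≤ t n) {κ : ℝ} (_hκ : 0 < κ) (hst : κ ≤ s n + t n) {W : ℕ} (hW : W ≤ padicValNat p n) :
    ep p s t n ≤ (2 : ℝ) ^ (-((W : ℝ) * κ)) := by
  rw [ep_eq hp s t hn]
  have h2p : (2 : ℝ) ≤ p := by exact_mod_cast hp.two_le
  set v := padicValNat p n
  have hWv : (W : ℝ) ≤ v := by exact_mod_cast hW
  have h1 : (v : ℝ) ≤ (p : ℝ) ^ v := by
    have : v < p ^ v := Nat.lt_pow_self hp.one_lt
    exact_mod_cast this.le
  have h2 : (W : ℝ) * κ ≤ (v : ℝ) * s n + t n * (p : ℝ) ^ v := by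
    calc (W : ℝ) * κ ≤ (W : ℝ) * (s n + t n) := by gcongr
      _ = W * s n + t n * W := by ring
      _ ≤ v * s n + t n * (p : ℝ) ^ v := by
          gcongr
          exact hWv.trans h1
  calc (p : ℝ) ^ (-((v : ℝ) * s n + t n * (p : ℝ) ^ v)) ≤ (p : ℝ) ^ (-((W : ℝ) * κ)) := by
        apply Real.rpow_le_rpow_of_exponent_le (by linarith)
        linarith
    _ ≤ (2 : ℝ) ^ (-((W : ℝ) * κ)) := by
        apply Real.rpow_le_rpow_of_nonpos (by norm_num) h2p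
        have : 0 ≤ (W : ℝ) * κ := by positivity
        linarith

lemma exists_kappa (F : Finset ℕ) (u : ℕ → ℝ) (hu : ∀ d ∈ F, 0 ≤ u d) :
    ∃ κ : ℝ, 0 < κ ∧ ∀ d ∈ F, u d = 0 ∨ κ ≤ u d := by
  classical
  induction F using Finset.induction_on with
  | empty => exact ⟨1, one_pos, fun d hd => absurd hd (notMem_empty d)⟩
  | insert x F hx ih =>
    obtain ⟨κ, hκ, h⟩ := ih fun d hd => hu d (mem_insert_of_mem hd)
    rcases eq_or_lt_of_le (hu x (mem_insert_self x F)) with h0 | h0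
    · refine ⟨κ, hκ, fun d hd => ?_⟩
      rcases mem_insert.1 hd with rfl | hd
      · left; exact h0.symm
      · exact h d hd
    · refine ⟨min κ (u x), lt_min hκ h0, fun d hd => ?_⟩
      rcases mem_insert.1 hd with rfl | hd
      · right; exact min_le_right _ _
      · rcases h d hd with h1 | h1
        · left; exact h1
        · right; exact (min_le_left _ _).trans h1

/-- uniform gap for the exponents -/
lemma exists_gap {s t : ℕ → ℝ} (hst : ∀ n, 1 ≤ n → 0 ≤ s n ∧ 0 ≤ t n) {Ns Nt : ℕ}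
    (hs : GcdSeq s Ns) (ht : GcdSeq t Nt) :
    ∃ κ : ℝ, 0 < κ ∧ ∀ n, 1 ≤ n → s n + t n = 0 ∨ κ ≤ s n + t n := by
  obtain ⟨κ, hκ, h⟩ := exists_kappa ((Ns * Nt).divisors) (fun n => s n + t n) (fun d hd => by
    have hd1 : 1 ≤ d := Nat.pos_of_mem_divisors hd
    exact add_nonneg (hst d hd1).1 (hst d hd1).2)
  refine ⟨κ, hκ, fun n hn => ?_⟩
  have hN : 1 ≤ Ns * Nt := Nat.mul_pos hs.1 ht.1
  have h1 := hs.eq_gcd hN (Dvd.intro _ rfl) (W := 1) le_rfl hn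
  have h2 := ht.eq_gcd hN (Dvd.intro_left _ rfl) (W := 1) le_rfl hn
  rw [pow_one] at h1 h2
  have h3 := h (Nat.gcd n (Ns * Nt)) (Nat.mem_divisors.2 ⟨Nat.gcd_dvd_right _ _, by omega⟩)
  rwa [h1, h2] at h3

lemma padicValNat_gcd_pow {p : ℕ} (hp : p.Prime) {M : ℕ} (hM : 1 ≤ M) (hpM : p ∣ M) (W : ℕ) {n : ℕ}
    (hn : 1 ≤ n) : padicValNat p (Nat.gcd n (M ^ W)) = padicValNat p n ∨
      (W ≤ padicValNat p n ∧ W ≤ padicValNat p (Nat.gcd n (M ^ W))) := by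
  have : Fact p.Prime := ⟨hp⟩
  have hMW : M ^ W ≠ 0 := by have := Nat.one_le_pow W M hM; omega
  have hg : Nat.gcd n (M ^ W) ≠ 0 := by have := gcd_pow_pos hM W n; omega
  by_cases h : padicValNat p n ≤ W
  · left
    apply le_antisymm
    · rw [← padicValNat_dvd_iff_le (by omega : n ≠ 0)]
      exact (pow_padicValNat_dvd).trans (Nat.gcd_dvd_left _ _)
    · rw [← padicValNat_dvd_iff_le hg]
      exact Nat.dvd_gcd pow_padicValNat_dvd ((pow_dvd_pow p h).trans (pow_dvd_pow_of_dvd hpM W))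
  · right
    push Not at h
    refine ⟨h.le, ?_⟩
    rw [← padicValNat_dvd_iff_le hg]
    exact Nat.dvd_gcd ((pow_dvd_pow p h.le).trans pow_padicValNat_dvd) (pow_dvd_pow_of_dvd hpM W)

lemma Appr.of_ep {p : ℕ} (hp : p.Prime) {s t : ℕ → ℝ} (hst : ∀ n, 1 ≤ n → 0 ≤ s n ∧ 0 ≤ t n)
    {Ns Nt M : ℕ} (hs : GcdSeq s Ns) (ht : GcdSeq t Nt) (hM : 1 ≤ M) (hpM : p ∣ M) (hNs : Ns ∣ M)
    (hNt : Nt ∣ M) : Appr (fun n => (ep p s t n : ℂ)) M := by
  obtain ⟨κ, hκ, hgap⟩ := exists_gap hst hs ht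
  intro ε hε
  -- choose V
  have hlim : Tendsto (fun W : ℕ => (2 : ℝ) ^ (-((W : ℝ) * κ))) atTop (𝓝 0) := by
    have h1 : (fun W : ℕ => (2 : ℝ) ^ (-((W : ℝ) * κ))) = fun W : ℕ => ((2 : ℝ) ^ (-κ)) ^ W := by
      funext W
      rw [← Real.rpow_natCast, ← Real.rpow_mul (by norm_num)]
      congr 1; ring
    rw [h1]
    apply tendsto_pow_atTop_nhds_zero_of_lt_one (Real.rpow_nonneg (by norm_num) _)
    exact Real.rpow_lt_one_of_one_lt_of_neg (by norm_num) (by linarith)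
  obtain ⟨V, hV⟩ := (hlim.eventually (gt_mem_nhds (by positivity : (0 : ℝ) < ε / 2))).exists_forall_of_atTop
  refine ⟨max V 1, fun W hW n hn => ?_⟩
  have hW1 : 1 ≤ W := le_trans (le_max_right _ _) hW
  have hWV : V ≤ W := le_trans (le_max_left _ _) hW
  have hm : 1 ≤ Nat.gcd n (M ^ W) := gcd_pow_pos hM W n
  have hs1 := hs.eq_gcd hM hNs hW1 hn
  have ht1 := ht.eq_gcd hM hNt hW1 hn
  rw [← Complex.ofReal_sub, Complex.norm_real, Real.norm_eq_abs]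
  rcases padicValNat_gcd_pow hp hM hpM W hn with h | ⟨h1, h2⟩
  · rw [ep_eq hp s t hn, ep_eq hp s t hm, hs1, ht1, h, sub_self, abs_zero]
    exact hε.le
  · obtain ⟨hsn, htn⟩ := hst n hn
    rcases hgap n hn with h0 | h0
    · have hs0 : s n = 0 := by linarith
      have ht0 : t n = 0 := by linarith
      rw [ep_eq hp s t hn, ep_eq hp s t hm, hs1, ht1, hs0, ht0]
      simp only [mul_zero, zero_mul, add_zero, neg_zero, Real.rpow_zero, sub_self, abs_zero]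
      exact hε.le
    · have h3 := ep_small hp hn hsn htn hκ h0 h1
      have h4 := ep_small hp (s := s) (t := t) hm (by rw [hs1]; exact hsn) (by rw [ht1]; exact htn) hκ
        (by rw [hs1, ht1]; exact h0) h2
      have h5 := hV W hWV
      have h6 := ep_pos hp s t hn
      have h7 := ep_pos hp s t hm
      rw [abs_le]
      constructor <;> linarith

end Pool.Agent.R310.FAD
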