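import Pool.Agent.R310.FAD.Core

/-! An arc of vanishing Fourier coefficients forces periodicity. -/

set_option autoImplicit false

open Filter Topology Finset

namespace Pool.Agent.R310.FAD

lemma dvd_pow_of_le {q M V W : ℕ} (hM : 1 ≤ M) (h : q ∣ M ^ V) (hW : q ≤ W) : q ∣ M ^ W := by
  have hMV : M ^ V ≠ 0 := by have := Nat.one_le_pow V M hM; omega
  have hMW : M ^ W ≠ 0 := by have := Nat.one_le_pow W M hM; omega
  have hq : q ≠ 0 := fun h0 => by rw [h0] at h; exact hMV (Nat.eq_zero_of_zero_dvd h)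
  rw [← Nat.factorization_le_iff_dvd hq hMW]
  intro p
  rcases Nat.eq_zero_or_pos (q.factorization p) with h0 | h0
  · rw [h0]; exact Nat.zero_le _
  · have hp : p.Prime := by
      by_contra hnp
      rw [Nat.factorization_eq_zero_of_not_prime q hnp] at h0
      exact absurd h0 (lt_irrefl 0)
    have hpq : p ∣ q := Nat.dvd_of_factorization_pos h0.ne'
    have hpM : p ∣ M := hp.dvd_of_dvd_pow (hpq.trans h)
    have h1 : 1 ≤ M.factorization p := (hp.dvd_iff_one_le_factorization (by omega)).1 hpM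
    have h2 : q.factorization p < q := Nat.factorization_lt p hq
    rw [Nat.factorization_pow]
    simp only [Finsupp.smul_apply, smul_eq_mul]
    calc q.factorization p ≤ W * 1 := by omega
      _ ≤ W * M.factorization p := Nat.mul_le_mul_left W h1

lemma arc_hit {z0 : ℂ} (hz0 : ‖z0‖ = 1) {δ : ℝ} (hδ : 0 < δ) :
    ∃ m0 : ℕ, ∀ m, m0 < m → ∀ z : ℂ, ‖z‖ = 1 → ∃ ρ : ℂ, ρ ^ m = 1 ∧ z * ρ ≠ z0 ∧ ‖z * ρ - z0‖ < δ := by
  obtain ⟨m0, hm0⟩ := exists_nat_gt (2 * Real.pi / δ)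
  refine ⟨max m0 1, fun m hm z hz => ?_⟩
  have hm1 : 1 < m := lt_of_le_of_lt (le_max_right _ _) hm
  have hm2 : (m0 : ℝ) < m := by exact_mod_cast lt_of_le_of_lt (le_max_left _ _) hm
  have hmpos : (0 : ℝ) < m := by exact_mod_cast (by omega : 0 < m)
  have hz' : z ≠ 0 := fun h => by rw [h, norm_zero] at hz; exact absurd hz (by norm_num)
  set θ : ℝ := Complex.arg (z0 / z) with hθ
  have h1 : Complex.exp (θ * Complex.I) = z0 / z := by
    have h2 := Complex.norm_mul_exp_arg_mul_I (z0 / z)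
    rw [norm_div, hz0, hz] at h2
    simpa using h2
  set k : ℤ := ⌊θ * m / (2 * Real.pi)⌋ + 1 with hk
  set α : ℝ := 2 * Real.pi * k / m - θ with hα
  have hpi := Real.pi_pos
  have hα0 : 0 < α := by
    have h3 := Int.lt_floor_add_one (θ * m / (2 * Real.pi))
    have h4 : θ * m / (2 * Real.pi) < k := by rw [hk]; push_cast; exact h3
    rw [div_lt_iff₀ (by positivity)] at h4
    rw [hα, sub_pos, lt_div_iff₀ hmpos]
    linarith
  have hα1 : α ≤ 2 * Real.pi / m := by
    have h3 := Int.floor_le (θ * m / (2 * Real.pi))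
    have h4 : (k : ℝ) - 1 ≤ θ * m / (2 * Real.pi) := by rw [hk]; push_cast; linarith
    rw [le_div_iff₀ (by positivity)] at h4
    rw [hα, sub_le_iff_le_add, div_add' _ _ _ hmpos.ne', div_le_div_iff_of_pos_right hmpos]
    linarith
  have hα2 : α < δ := by
    refine lt_of_le_of_lt hα1 ?_
    rw [div_lt_iff₀ hmpos]
    rw [div_lt_iff₀ hδ] at hm0
    calc 2 * Real.pi < m0 * δ := hm0
      _ ≤ δ * m := by rw [mul_comm]; exact mul_le_mul_of_nonneg_left hm2.le hδ.le
  have hα3 : α ≤ Real.pi := by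
    refine hα1.trans ?_
    rw [div_le_iff₀ hmpos, mul_comm 2 Real.pi]
    apply mul_le_mul_of_nonneg_left _ hpi.le
    exact_mod_cast hm1
  set ρ : ℂ := Complex.exp ((2 * Real.pi * k / m : ℝ) * Complex.I) with hρ
  have h5 : z * ρ = z0 * Complex.exp (α * Complex.I) := by
    have h6 : ρ = (z0 / z) * Complex.exp (α * Complex.I) := by
      rw [← h1, ← Complex.exp_add, hρ, hα]
      congr 1
      push_cast; ring
    rw [h6]; field_simp
  refine ⟨ρ, ?_, ?_, ?_⟩
  · rw [hρ, ← Complex.exp_nat_mul]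
    rw [Complex.exp_eq_one_iff]
    refine ⟨k, ?_⟩
    have : (m : ℂ) ≠ 0 := by exact_mod_cast (by omega : m ≠ 0)
    push_cast
    field_simp
  · rw [h5]
    intro h6
    have hz00 : z0 ≠ 0 := fun h => by rw [h, norm_zero] at hz0; exact absurd hz0 (by norm_num)
    have h7 : Complex.exp (α * Complex.I) = 1 := mul_left_cancel₀ hz00 (by rw [h6, mul_one])
    rw [Complex.exp_eq_one_iff] at h7
    obtain ⟨n, hn⟩ := h7
    have h8 : (α : ℂ) = n * (2 * Real.pi) := by
      have hI := Complex.I_ne_zero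
      apply mul_right_cancel₀ hI
      rw [hn]; ring
    have h9 : α = n * (2 * Real.pi) := by exact_mod_cast h8
    rcases lt_trichotomy n 0 with h10 | h10 | h10
    · have : (n : ℝ) ≤ -1 := by exact_mod_cast (by omega : n ≤ -1)
      nlinarith
    · rw [h10] at h9; simp at h9; linarith
    · have : (1 : ℝ) ≤ n := by exact_mod_cast (by omega : 1 ≤ n)
      nlinarith
  · rw [h5]
    have h6 : z0 * Complex.exp (α * Complex.I) - z0 = z0 * (Complex.exp (α * Complex.I) - 1) := by ring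
    rw [h6, norm_mul, hz0, one_mul]
    have h7 : ‖Complex.exp (α * Complex.I) - 1‖ ≤ ‖α‖ := by
      have := Real.norm_exp_I_mul_ofReal_sub_one_le (x := α)
      rw [mul_comm]; exact this
    refine lt_of_le_of_lt h7 ?_
    rw [Real.norm_of_nonneg hα0.le]; exact hα2

/-- vanishing of the Fourier coefficients on a punctured arc forces periodicity -/
theorem Appr.periodic_of_arc {a : ℕ → ℂ} {M : ℕ} (hM : 1 ≤ M) (h : Appr a M) {z0 : ℂ}
    (hz0 : ‖z0‖ = 1) {δ : ℝ} (hδ : 0 < δ)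
    (harc : ∀ y : ℂ, ‖y‖ = 1 → y ≠ z0 → ‖y - z0‖ < δ → ∀ V, y ^ (M ^ V) = 1 →
      Ab (fun n => a n * y ^ n) 0) :
    ∃ V₀, ∀ m n, 1 ≤ m → 1 ≤ n → m ≡ n [MOD M ^ V₀] → a m = a n := by
  obtain ⟨m0, hm0⟩ := arc_hit hz0 hδ
  refine ⟨m0 + 1, h.periodic hM (m0 + 1) fun V y hy hy1 => ?_⟩
  have hyn : ‖y‖ = 1 := Complex.norm_eq_one_of_pow_eq_one hy (by
    have := Nat.one_le_pow V M hM; omega)
  set g := y ^ M with hg
  have hgV : g ^ (M ^ V) = 1 := by rw [hg, ← pow_mul, mul_comm, pow_mul, hy, one_pow]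
  have hgd : orderOf g ∣ M ^ V := orderOf_dvd_of_pow_eq_one hgV
  have hgpos : 0 < orderOf g := Nat.pos_of_dvd_of_pos hgd (Nat.one_le_pow V M hM)
  have hgm : m0 < orderOf g := by
    by_contra hcon
    have h1 := dvd_pow_of_le hM hgd (not_lt.1 hcon)
    rw [orderOf_dvd_iff_pow_eq_one] at h1
    apply hy1
    rw [pow_succ', pow_mul, ← hg, h1]
  obtain ⟨ρ, h1, h2, h3⟩ := hm0 _ hgm y hyn
  have hprim : IsPrimitiveRoot g (orderOf g) := IsPrimitiveRoot.orderOf g
  have : NeZero (orderOf g) := ⟨by omega⟩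
  obtain ⟨k, _, hk⟩ := hprim.eq_pow_of_pow_eq_one h1
  have h4 : y * ρ = y ^ (1 + k * M) := by
    rw [← hk, hg, ← pow_mul, pow_add, pow_one, mul_comm M k]
  have h5 : ‖y ^ (1 + k * M)‖ = 1 := by rw [norm_pow, hyn, one_pow]
  have h6 : (y ^ (1 + k * M)) ^ (M ^ V) = 1 := by
    rw [← pow_mul, mul_comm, pow_mul, hy, one_pow]
  rw [h4] at h2 h3
  have h7 := harc _ h5 h2 h3 V h6
  obtain ⟨L, hL⟩ := h.mean_exists hM hyn.le
  have h8 := h.mean_unit hM hyn hy k hL
  have h9 := h8.unique h7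
  rwa [h9] at hL

end Pool.Agent.R310.FAD
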