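import Mathlib

/-! The determinants `det (A ^ n - 1)` of an integer matrix through its eigenvalues. -/

set_option autoImplicit false

open Finset Polynomial

namespace Pool.Agent.R310.FAD

lemma mprod (M : Multiset ℂ) (f : ℂ → ℂ) : (M.map f).prod = ∏ x : M, f x.1 := by
  rw [← Multiset.map_univ]; rfl

lemma det_sub_smul {d : ℕ} (B : Matrix (Fin d) (Fin d) ℂ) (ρ : ℂ) :
    (B - ρ • (1 : Matrix (Fin d) (Fin d) ℂ)).det = (B.charpoly.roots.map (fun ξ => ξ - ρ)).prod := by
  have hs : B.charpoly.Splits := IsAlgClosed.splits _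
  have h1 := Matrix.eval_charpoly B ρ
  rw [hs.eval_eq_prod_roots_of_monic (Matrix.charpoly_monic B)] at h1
  have h2 : B - ρ • (1 : Matrix (Fin d) (Fin d) ℂ) = -(Matrix.scalar (Fin d) ρ - B) := by
    rw [neg_sub]
    congr 1
    ext i j
    simp [Matrix.one_apply, Matrix.diagonal_apply]
  rw [h2, Matrix.det_neg, ← h1, Fintype.card_fin]
  have h3 : Multiset.card B.charpoly.roots = d := by
    rw [← hs.natDegree_eq_card_roots, Matrix.charpoly_natDegree_eq_dim, Fintype.card_fin]
  have h4 : (B.charpoly.roots.map (fun ξ => ξ - ρ)) = (B.charpoly.roots.map (fun ξ => ρ - ξ)).map Neg.neg := by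
    rw [Multiset.map_map]
    exact Multiset.map_congr rfl fun x _ => by simp
  rw [h4, Multiset.prod_map_neg, Multiset.card_map, h3]

lemma det_pow_sub_one {d : ℕ} (B : Matrix (Fin d) (Fin d) ℂ) {n : ℕ} (hn : 1 ≤ n) :
    (B ^ n - 1).det = (B.charpoly.roots.map (fun ξ => ξ ^ n - 1)).prod := by
  set φ : ℂ[X] →* ℂ := (Matrix.detMonoidHom : Matrix (Fin d) (Fin d) ℂ →* ℂ).comp
    ((aeval B : ℂ[X] →ₐ[ℂ] Matrix (Fin d) (Fin d) ℂ) : ℂ[X] →* Matrix (Fin d) (Fin d) ℂ) with hφ
  have hφa : ∀ p : ℂ[X], φ p = (aeval B p).det := fun p => rfl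
  have h0 := Complex.isPrimitiveRoot_exp n (by omega)
  have h1 : (X ^ n - 1 : ℂ[X]) = ∏ ζ ∈ nthRootsFinset n (1 : ℂ), (X - C ζ) :=
    X_pow_sub_one_eq_prod (by omega) h0
  have h2 : φ (X ^ n - 1) = (B ^ n - 1).det := by
    rw [hφa]; simp
  have h3 : ∀ ρ : ℂ, φ (X - C ρ) = ∏ x : B.charpoly.roots, (x.1 - ρ) := by
    intro ρ
    rw [hφa, ← mprod _ (fun ξ => ξ - ρ), ← det_sub_smul]
    congr 1
    simp [Algebra.algebraMap_eq_smul_one]
  rw [← h2, h1, map_prod, mprod]
  simp only [h3]
  rw [prod_comm]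
  refine prod_congr rfl fun x _ => ?_
  have h4 := congrArg (eval x.1) h1
  simp only [eval_sub, eval_pow, eval_X, eval_one, eval_prod, eval_C] at h4
  exact h4.symm

/-- products of a conjugation invariant function over a conjugation invariant multiset -/
lemma prod_pos_of_conj (M : Multiset ℂ) (hM : M.map (starRingEnd ℂ) = M) (q : ℂ → ℂ)
    (hq : ∀ z, q (starRingEnd ℂ z) = starRingEnd ℂ (q z))
    (hreal : ∀ z ∈ M, z.im = 0 → ∃ r : ℝ, 0 < r ∧ q z = r) (hne : ∀ z ∈ M, q z ≠ 0) :
    ∃ r : ℝ, 0 < r ∧ (M.map q).prod = r := by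
  classical
  have h1 : M = M.filter (fun z => z.im = 0) + (M.filter (fun z => 0 < z.im) + M.filter (fun z => z.im < 0)) := by
    have h2 := Multiset.filter_add_not (fun z : ℂ => z.im = 0) M
    have h3 := Multiset.filter_add_not (fun z : ℂ => 0 < z.im) (M.filter (fun z => ¬ z.im = 0))
    rw [Multiset.filter_filter, Multiset.filter_filter] at h3
    have h4 : M.filter (fun z => 0 < z.im ∧ ¬ z.im = 0) = M.filter (fun z => 0 < z.im) :=
      Multiset.filter_congr fun z _ => ⟨fun h => h.1, fun h => ⟨h, h.ne'⟩⟩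
    have h5 : M.filter (fun z => ¬ 0 < z.im ∧ ¬ z.im = 0) = M.filter (fun z => z.im < 0) :=
      Multiset.filter_congr fun z _ => ⟨fun h => lt_of_le_of_ne (not_lt.1 h.1) h.2,
        fun h => ⟨not_lt.2 h.le, h.ne⟩⟩
    rw [h4, h5] at h3
    rw [h3, h2]
  have h2 : M.filter (fun z => z.im < 0) = (M.filter (fun z => 0 < z.im)).map (starRingEnd ℂ) := by
    conv_lhs => rw [← hM]
    rw [Multiset.filter_map]
    congr 1
    refine Multiset.filter_congr fun z _ => ?_
    simp [Function.comp]
  have h3 : ((M.filter (fun z => z.im < 0)).map q).prod =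
      starRingEnd ℂ ((M.filter (fun z => 0 < z.im)).map q).prod := by
    rw [h2, Multiset.map_map, map_multiset_prod, Multiset.map_map]
    congr 1
    exact Multiset.map_congr rfl fun z _ => by simp [hq]
  have h4 : ∀ N : Multiset ℂ, (∀ z ∈ N, ∃ r : ℝ, 0 < r ∧ q z = r) → ∃ r : ℝ, 0 < r ∧ (N.map q).prod = r := by
    intro N
    induction N using Multiset.induction_on with
    | empty => intro _; exact ⟨1, one_pos, by simp⟩
    | cons a N ih =>
      intro h
      obtain ⟨r1, hr1, hr1'⟩ := h a (Multiset.mem_cons_self a N)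
      obtain ⟨r2, hr2, hr2'⟩ := ih fun z hz => h z (Multiset.mem_cons_of_mem hz)
      refine ⟨r1 * r2, mul_pos hr1 hr2, ?_⟩
      rw [Multiset.map_cons, Multiset.prod_cons, hr1', hr2']; push_cast; ring
  obtain ⟨r, hr, hr'⟩ := h4 (M.filter (fun z => z.im = 0)) fun z hz => by
    rw [Multiset.mem_filter] at hz
    exact hreal z hz.1 hz.2
  set P := ((M.filter (fun z => 0 < z.im)).map q).prod with hP
  have hP0 : P ≠ 0 := by
    rw [hP]
    refine Multiset.prod_ne_zero fun h0 => ?_
    rw [Multiset.mem_map] at h0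
    obtain ⟨z, hz, hz0⟩ := h0
    exact hne z (Multiset.mem_filter.1 hz).1 hz0
  refine ⟨r * Complex.normSq P, mul_pos hr (Complex.normSq_pos.2 hP0), ?_⟩
  conv_lhs => rw [h1]
  rw [Multiset.map_add, Multiset.map_add, Multiset.prod_add, Multiset.prod_add, hr', h3, ← hP,
    Complex.mul_conj]
  push_cast; ring

/-- eigenvalue description of the determinants, including signs -/
theorem eig {d : ℕ} (A : Matrix (Fin d) (Fin d) ℤ) :
    ∃ (ι : Type) (_ : Fintype ι) (ξ : ι → ℂ),
      (∀ n, 1 ≤ n → (((A ^ n - 1).det : ℤ) : ℂ) = ∏ j, (ξ j ^ n - 1)) ∧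
      ((∀ n, 1 ≤ n → (A ^ n - 1).det ≠ 0) → ∀ n, 1 ≤ n →
        0 < (A ^ n - 1).det * (A ^ (if Even n then 2 else 1) - 1).det) := by
  set B : Matrix (Fin d) (Fin d) ℂ := A.map (Int.castRingHom ℂ) with hB
  set M := B.charpoly.roots with hM
  have h1 : ∀ n, 1 ≤ n → (((A ^ n - 1).det : ℤ) : ℂ) = (M.map (fun ξ => ξ ^ n - 1)).prod := by
    intro n hn
    rw [← det_pow_sub_one B hn]
    have h2 : B ^ n - 1 = (Int.castRingHom ℂ).mapMatrix (A ^ n - 1) := by
      rw [map_sub, map_pow, map_one]; rfl
    rw [h2, ← RingHom.map_det]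
    rfl
  have hconj : M.map (starRingEnd ℂ) = M := by
    have hs : B.charpoly.Splits := IsAlgClosed.splits _
    rw [hM, ← hs.roots_map, ← Matrix.charpoly_map]
    congr 2
    rw [hB]
    ext i j
    simp
  refine ⟨M, inferInstance, fun x => x.1, fun n hn => ?_, fun hne n hn => ?_⟩
  · rw [h1 n hn, mprod]
  · -- signs
    have hroot : ∀ z ∈ M, ∀ m, 1 ≤ m → z ^ m - 1 ≠ 0 := by
      intro z hz m hm h0
      have h2 := h1 m hm
      have h3 : (M.map (fun ξ => ξ ^ m - 1)).prod = 0 :=
        Multiset.prod_eq_zero (Multiset.mem_map.2 ⟨z, hz, h0⟩)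
      rw [h3] at h2
      exact hne m hm (by exact_mod_cast h2)
    set e : ℕ := if Even n then 2 else 1 with he
    have he1 : 1 ≤ e := by rw [he]; split_ifs <;> norm_num
    have h2 : (((A ^ n - 1).det * (A ^ e - 1).det : ℤ) : ℂ) =
        (M.map (fun ξ => (ξ ^ n - 1) * (ξ ^ e - 1))).prod := by
      rw [Multiset.prod_map_mul, ← h1 n hn, ← h1 e he1]; push_cast; ring
    obtain ⟨r, hr, hr'⟩ := prod_pos_of_conj M hconj (fun ξ => (ξ ^ n - 1) * (ξ ^ e - 1))
      (fun z => by simp) (fun z hz him => by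
        have hzr : z = (z.re : ℂ) := by
          apply Complex.ext
          · simp
          · simpa using him
        refine ⟨(z.re ^ n - 1) * (z.re ^ e - 1), ?_, ?_⟩
        · have hzn : z.re ^ n - 1 ≠ 0 := by
            intro h0
            apply hroot z hz n hn
            rw [hzr]; exact_mod_cast h0
          have hze : z.re ^ e - 1 ≠ 0 := by
            intro h0
            apply hroot z hz e he1
            rw [hzr]; exact_mod_cast h0
          refine lt_of_le_of_ne ?_ (mul_ne_zero hzn hze).symm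
          rw [he]
          by_cases hev : Even n
          · rw [if_pos hev]
            rcases le_or_gt (|z.re|) 1 with h | h
            · have h3 : z.re ^ n ≤ 1 := by
                rw [← hev.pow_abs]; exact pow_le_one₀ (abs_nonneg _) h
              have h4 : z.re ^ 2 ≤ 1 := by
                rw [← sq_abs]; exact pow_le_one₀ (abs_nonneg _) h
              nlinarith
            · have h3 : 1 ≤ z.re ^ n := by
                rw [← hev.pow_abs]; exact one_le_pow₀ h.le
              have h4 : 1 ≤ z.re ^ 2 := by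
                rw [← sq_abs]; exact one_le_pow₀ h.le
              nlinarith
          · rw [if_neg hev]
            rw [Nat.not_even_iff_odd] at hev
            rcases le_or_gt z.re 1 with h | h
            · have h3 : z.re ^ n ≤ 1 := by
                have := hev.strictMono_pow.monotone h
                simpa using this
              rw [pow_one]
              nlinarith
            · have h3 : 1 ≤ z.re ^ n := one_le_pow₀ h.le
              rw [pow_one]
              nlinarith
        · conv_lhs => rw [hzr]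
          push_cast; rfl)
      (fun z hz => mul_ne_zero (hroot z hz n hn) (hroot z hz e he1))
    rw [hr'] at h2
    have h3 : (((A ^ n - 1).det * (A ^ e - 1).det : ℤ) : ℝ) = r := by
      apply Complex.ofReal_injective
      rw [← h2]; exact Complex.ofReal_intCast _
    have h4 : (0 : ℝ) < (((A ^ n - 1).det * (A ^ e - 1).det : ℤ) : ℝ) := by rw [h3]; exact hr
    exact_mod_cast h4

end Pool.Agent.R310.FAD
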