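import Pool.Agent.R310.FAD.CaseB
import Pool.Agent.R310.FAD.Eig

/-! Assembly of the non-degenerate case. -/

set_option autoImplicit false

open Filter Topology Finset

namespace Pool.Agent.R310.FAD

lemma exists_sigma {D : ℕ → ℤ} (hD : ∀ n, 1 ≤ n → D n ≠ 0)
    (hs : ∀ n, 1 ≤ n → 0 < D n * D (if Even n then 2 else 1)) :
    ∃ σ : ℕ → ℝ, GcdSeq σ 2 ∧ (∀ n, 1 ≤ n → σ n = 1 ∨ σ n = -1) ∧
      (∀ n, 1 ≤ n → |(D n : ℝ)| = σ n * D n) := by
  classical
  set sg : ℤ → ℝ := fun x => if 0 < x then 1 else -1 with hsg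
  have hsg1 : ∀ x, sg x = 1 ∨ sg x = -1 := fun x => by
    rw [hsg]; dsimp only; split_ifs
    · left; rfl
    · right; rfl
  refine ⟨fun n => sg (D (if Even n then 2 else 1)), ⟨by norm_num, fun n hn => ?_⟩,
    fun n _ => hsg1 _, fun n hn => ?_⟩
  · have h1 : Even (Nat.gcd n 2) ↔ Even n := by
      rw [even_iff_two_dvd, even_iff_two_dvd, Nat.dvd_gcd_iff]
      exact ⟨fun h => h.1, fun h => ⟨h, dvd_rfl⟩⟩
    dsimp only
    simp only [h1]
  · have h1 := hs n hn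
    dsimp only
    generalize D (if Even n then 2 else 1) = y at h1 ⊢
    rw [hsg]; dsimp only
    by_cases h2 : 0 < y
    · rw [if_pos h2]
      have h3 : 0 < D n := by
        by_contra h4
        have := mul_nonpos_of_nonpos_of_nonneg (not_lt.1 h4) h2.le
        linarith
      rw [one_mul, abs_of_pos (by exact_mod_cast h3)]
    · rw [if_neg h2]
      have h3 : D n < 0 := by
        by_contra h4
        have := mul_nonpos_of_nonneg_of_nonpos (not_lt.1 h4) (not_lt.1 h2)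
        linarith
      rw [neg_one_mul, abs_of_neg (by exact_mod_cast h3)]

/-- the structural form of a nondegenerate FAD sequence -/
lemma struct {X : Type*} {f : X → X} {d : ℕ} {A : Matrix (Fin d) (Fin d) ℤ} {S : Finset ℕ} {c : ℝ}
    {r : ℕ → ℝ} {s t : ℕ → ℕ → ℝ} (hS : ∀ p ∈ S, p.Prime) (hc : 0 < c)
    (hr : ∀ n, 1 ≤ n → 0 < r n)
    (hf : ∀ n, 1 ≤ n → (fixCount f n : ℝ) = |((A ^ n - 1).det : ℝ)| * c ^ n * r n *
      ∏ p ∈ S, (((padicNorm p n : ℚ) : ℝ) ^ (s p n) *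
        (p : ℝ) ^ (-(t p n) * ((padicNorm p n : ℚ) : ℝ)⁻¹)))
    (hD : ∀ n, 1 ≤ n → (A ^ n - 1).det ≠ 0) :
    ∃ (ι : Type) (_ : Fintype ι) (ξ : ι → ℂ) (σ : ℕ → ℝ),
      (∀ j, ∀ m : ℕ, 1 ≤ m → ξ j ^ m ≠ 1) ∧ GcdSeq σ 2 ∧ (∀ n, 1 ≤ n → σ n = 1 ∨ σ n = -1) ∧
      (∀ n, 1 ≤ n → |((A ^ n - 1).det : ℝ)| = σ n * ((A ^ n - 1).det : ℝ)) ∧
      (∀ n, 1 ≤ n → (((A ^ n - 1).det : ℤ) : ℂ) = ∏ j, (ξ j ^ n - 1)) ∧
      (∀ n, 1 ≤ n → 1 ≤ fixCount f n) ∧
      (∀ n, 1 ≤ n → wq ξ (fun n => (aE σ r S s t n : ℂ)) n = (fixCount f n : ℂ) / ((c * Lam0 ξ : ℝ) : ℂ) ^ n) := by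
  obtain ⟨ι, hι, ξ, hξ, hsign⟩ := eig A
  obtain ⟨σ, hσ, hσ1, hσD⟩ := exists_sigma hD (hsign hD)
  refine ⟨ι, hι, ξ, σ, ?_, hσ, hσ1, hσD, hξ, ?_, ?_⟩
  · intro j m hm h
    apply hD m hm
    have h1 := hξ m hm
    rw [prod_eq_zero (mem_univ j) (by rw [h, sub_self])] at h1
    exact_mod_cast h1
  · intro n hn
    have h1 : (0 : ℝ) < fixCount f n := by
      rw [hf n hn]
      have h2 : 0 < |((A ^ n - 1).det : ℝ)| := abs_pos.2 (by exact_mod_cast hD n hn)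
      have h3 : 0 < ∏ p ∈ S, (((padicNorm p n : ℚ) : ℝ) ^ (s p n) *
        (p : ℝ) ^ (-(t p n) * ((padicNorm p n : ℚ) : ℝ)⁻¹)) := prod_pos fun p hp =>
          ep_pos (hS p hp) (s p) (t p) hn
      have h4 := hr n hn
      positivity
    exact_mod_cast h1
  · intro n hn
    have h1 : (fixCount f n : ℂ) = (((A ^ n - 1).det : ℤ) : ℂ) * (c : ℂ) ^ n *
        ((aE σ r S s t n : ℝ) : ℂ) := by
      have h2 : (fixCount f n : ℝ) = ((A ^ n - 1).det : ℝ) * c ^ n * aE σ r S s t n := by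
        rw [hf n hn, hσD n hn]
        unfold aE ep
        ring
      have h3 := congrArg (fun x : ℝ => (x : ℂ)) h2
      simp only [Complex.ofReal_mul, Complex.ofReal_natCast, Complex.ofReal_intCast,
        Complex.ofReal_pow] at h3
      exact h3
    have h4 : (Lam0 ξ : ℂ) ≠ 0 := by
      exact_mod_cast (lt_of_lt_of_le one_pos (Lam0_ge ξ)).ne'
    have h5 : (c : ℂ) ≠ 0 := by exact_mod_cast hc.ne'
    unfold wq
    rw [h1, hξ n hn, Complex.ofReal_mul, mul_pow]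
    field_simp

/-- main theorem in the case of a genuinely p-adic factor -/
theorem caseB {X : Type*} {f : X → X} {d : ℕ} {A : Matrix (Fin d) (Fin d) ℤ} {S : Finset ℕ} {c : ℝ}
    {r : ℕ → ℝ} {s t : ℕ → ℕ → ℝ} (hS : ∀ p ∈ S, p.Prime) (hc : 0 < c)
    (hr : ∀ n, 1 ≤ n → 0 < r n) (hrN : ∃ N, GcdSeq r N)
    (hst : ∀ p ∈ S, (∀ n, 1 ≤ n → 0 ≤ s p n ∧ 0 ≤ t p n) ∧
      (∃ N, GcdSeq (s p) N ∧ Nat.Coprime N p) ∧ (∃ N, GcdSeq (t p) N ∧ Nat.Coprime N p))
    (hf : ∀ n, 1 ≤ n → (fixCount f n : ℝ) = |((A ^ n - 1).det : ℝ)| * c ^ n * r n *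
      ∏ p ∈ S, (((padicNorm p n : ℚ) : ℝ) ^ (s p n) *
        (p : ℝ) ^ (-(t p n) * ((padicNorm p n : ℚ) : ℝ)⁻¹)))
    (hD : ∀ n, 1 ≤ n → (A ^ n - 1).det ≠ 0)
    {p : ℕ} (hp : p ∈ S) {n₁ : ℕ} (hn₁ : 1 ≤ n₁) (hne : ¬ (s p n₁ = 0 ∧ t p n₁ = 0)) :
    StrongNaturalBoundary (zeta f) (1 / Lam f) := by
  obtain ⟨ι, hι, ξ, σ, hξ, hσ, hσ1, hσD, hξD, hF1, hw⟩ := struct hS hc hr hf hD
  obtain ⟨N, hN⟩ := hrN
  obtain ⟨M, hM, happ⟩ := aE_appr hS hσ hN hst
  have hσabs : ∀ n, 1 ≤ n → |σ n| = 1 := fun n hn => by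
    rcases hσ1 n hn with h | h
    · rw [h, abs_one]
    · rw [h, abs_neg, abs_one]
  set a : ℕ → ℂ := fun n => (aE σ r S s t n : ℂ) with ha
  have hΛ0 : 0 < Lam0 ξ := lt_of_lt_of_le one_pos (Lam0_ge ξ)
  set ρ : ℝ := c * Lam0 ξ with hρ
  have hρ0 : 0 < ρ := mul_pos hc hΛ0
  obtain ⟨C, hC⟩ := wq_bdd ξ (happ.bdd hM)
  have hwn : ∀ n, 1 ≤ n → ‖wq ξ a n‖ = (fixCount f n : ℝ) / ρ ^ n := by
    intro n hn
    rw [hw n hn, norm_div, norm_pow, Complex.norm_real, Real.norm_of_nonneg hρ0.le]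
    simp
  have ha1 : a 1 ≠ 0 := by
    rw [ha]; dsimp only
    unfold aE
    have h1 : σ 1 ≠ 0 := fun h => by have := hσabs 1 le_rfl; rw [h, abs_zero] at this; norm_num at this
    have h2 := (hr 1 le_rfl).ne'
    have h3 : (∏ p ∈ S, ep p (s p) (t p) 1) ≠ 0 :=
      (prod_pos fun q hq => ep_pos (hS q hq) _ _ le_rfl).ne'
    exact_mod_cast mul_ne_zero (mul_ne_zero h1 h2) h3
  have hLam : Lam f = ρ := by
    refine growth hF1 hρ0 (C := C) (fun n hn => ?_) fun C' θ hθ0 hθ1 hcon => ?_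
    · have h1 := hC n
      rw [hwn n hn, div_le_iff₀ (by positivity)] at h1
      exact h1
    · -- no decay
      rcases eq_or_lt_of_le hθ0 with h0 | h0
      · have h1 := hcon 1 le_rfl
        rw [← h0] at h1
        have h2 : (1 : ℝ) ≤ fixCount f 1 := by exact_mod_cast hF1 1 le_rfl
        have h3 : 0 < (fixCount f 1 : ℝ) / ρ ^ 1 := by positivity
        simp at h1
        have h4 : (fixCount f 1 : ℝ) / ρ ^ 1 = (fixCount f 1 : ℝ) / ρ := by rw [pow_one]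
        linarith
      · refine no_decay ξ hξ hM happ ha1 hθ0 hθ1 (C := |C'| + ‖wq ξ a 0‖) fun n => ?_
        rcases Nat.eq_zero_or_pos n with hn | hn
        · rw [hn, pow_zero, mul_one]
          have := abs_nonneg C'
          linarith
        · rw [hwn n hn]
          refine (hcon n hn).trans ?_
          have h1 : C' ≤ |C'| + ‖wq ξ a 0‖ := by
            have := le_abs_self C'
            have := norm_nonneg (wq ξ a 0)
            linarith
          exact mul_le_mul_of_nonneg_right h1 (by positivity)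
  rw [hLam]
  set R : ℝ := 1 / ρ with hR
  have hR0 : 0 < R := by positivity
  have hcR : ∀ n, 1 ≤ n → ‖(fixCount f n : ℂ)‖ * R ^ n ≤ C := by
    intro n hn
    have h1 := hC n
    rw [hwn n hn] at h1
    rw [hR, one_div, inv_pow, ← div_eq_mul_inv]
    simpa using h1
  have hzeta : zeta f = Zc (fun n => (fixCount f n : ℂ)) := rfl
  refine ⟨?_, ?_⟩
  · refine DifferentiableOn.analyticOnNhd (fun z hz => ?_) Metric.isOpen_ball
    rw [mem_ball_zero_iff] at hz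
    rw [hzeta]
    exact ((hasDerivAt_series hR0 hcR hz).cexp).differentiableAt.differentiableWithinAt
  · rintro U hU ⟨z0, hz0U, hz0⟩ ⟨g, hg, hgz⟩
    obtain ⟨δ, hδ, harc⟩ := merom_arc hR0 hcR hU hg hgz hz0U hz0
    have hz1 : ‖z0 / (R : ℂ)‖ = 1 := by
      rw [norm_div, hz0, Complex.norm_real, Real.norm_of_nonneg hR0.le, div_self hR0.ne']
    obtain ⟨V₀, hV₀⟩ := periodic_of_arc ξ hξ hM happ hz1 hδ (fun y hy hy1 hy2 => by
      have h1 := harc y hy hy1 hy2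
      refine h1.congr' ?_ 1 fun n hn => ?_
      · refine Bdd.mul ⟨|C|, fun n => ?_⟩ (Bdd.pow hy.le)
        dsimp only
        split_ifs with h0
        · rw [norm_zero]; exact abs_nonneg _
        · rw [norm_mul, norm_pow, Complex.norm_real, Real.norm_of_nonneg hR0.le]
          exact (hcR n (by omega)).trans (le_abs_self _)
      · rw [if_neg (by omega), hw n hn]
        congr 1
        rw [hR]; push_cast
        rw [one_div, inv_pow, ← div_eq_mul_inv])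
    refine aE_not_periodic hS hσabs hr hN hst hp hn₁ hne (K := M ^ V₀) (Nat.one_le_pow V₀ M hM)
      fun m n hm hn hmn => ?_
    have h1 := hV₀ m n hm hn hmn
    exact Complex.ofReal_injective h1

end Pool.Agent.R310.FAD
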