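import Pool.Agent.R310.FAD.RatC

/-! The purely gcd case: the zeta function is root-rational. -/

set_option autoImplicit false

open Filter Topology Finset

namespace Pool.Agent.R310.FAD

lemma hasSum_log_ind {d : ℕ} (hd : 1 ≤ d) {u : ℂ} (hu : ‖u‖ < 1) :
    HasSum (fun n : ℕ => if d ∣ n then (d : ℂ) * (u ^ n / n) else 0) (-Complex.log (1 - u ^ d)) := by
  have hud : ‖u ^ d‖ < 1 := by rw [norm_pow]; exact pow_lt_one₀ (norm_nonneg _) hu (by omega)
  have h1 := Complex.hasSum_taylorSeries_neg_log hud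
  have hinj : Function.Injective (fun m : ℕ => d * m) := fun a b hab =>
    Nat.eq_of_mul_eq_mul_left (by omega) hab
  rw [← hinj.hasSum_iff]
  · have hfun : ((fun n : ℕ => if d ∣ n then (d : ℂ) * (u ^ n / n) else 0) ∘ fun m : ℕ => d * m) =
        fun m : ℕ => (u ^ d) ^ m / m := by
      funext m
      simp only [Function.comp, dvd_mul_right, if_true]
      have hd0 : (d : ℂ) ≠ 0 := by exact_mod_cast (by omega : d ≠ 0)
      rcases Nat.eq_zero_or_pos m with hm | hm
      · subst hm; simp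
      · have hm0 : (m : ℂ) ≠ 0 := by exact_mod_cast (by omega : m ≠ 0)
        push_cast
        rw [pow_mul]; field_simp
    rw [hfun]; exact h1
  · intro n hn
    by_contra hne
    apply hn
    by_cases hdn : d ∣ n
    · obtain ⟨m, rfl⟩ := hdn; exact ⟨m, rfl⟩
    · rw [if_neg hdn] at hne; exact absurd rfl hne

theorem root_rational_of {X : Type*} {f : X → X} {I : Type*} (J : Finset I) (b : I → ℂ) (e : I → ℕ)
    (he : ∀ i ∈ J, 1 ≤ e i) (β : I → ℚ)
    (hF : ∀ n, 1 ≤ n → (fixCount f n : ℂ) =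
      ∑ i ∈ J, if e i ∣ n then ((β i : ℚ) : ℂ) * (e i : ℂ) * (b i) ^ n else 0) : RootRational f := by
  classical
  set k : ℕ := ∏ i ∈ J, (β i).den with hk
  have hk1 : 1 ≤ k := prod_pos fun i _ => (β i).den_pos
  have hint : ∀ i ∈ J, ∃ m : ℤ, (k : ℚ) * β i = m := by
    intro i hi
    obtain ⟨l, hl⟩ : (β i).den ∣ k := dvd_prod_of_mem (fun i => (β i).den) hi
    refine ⟨l * (β i).num, ?_⟩
    rw [hl]; push_cast
    have := Rat.mul_den_eq_num (β i)
    calc ((β i).den : ℚ) * l * β i = l * (β i * (β i).den) := by ring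
      _ = l * (β i).num := by rw [this]
  choose! m hm using hint
  set p : I → Polynomial ℂ := fun i => 1 - Polynomial.C ((b i) ^ (e i)) * Polynomial.X ^ (e i) with hp
  have hpe : ∀ i z, (p i).eval z = 1 - (b i * z) ^ (e i) := by
    intro i z
    rw [hp]; simp [mul_pow]
  refine ⟨k, hk1, ∏ i ∈ J, (p i) ^ (-(m i)).toNat, ∏ i ∈ J, (p i) ^ (m i).toNat, ?_, ?_⟩
  · rw [prod_ne_zero_iff]
    intro i hi
    apply pow_ne_zero
    intro h0
    have h1 := hpe i 0
    rw [h0, Polynomial.eval_zero, mul_zero, zero_pow (by have := he i hi; omega), sub_zero] at h1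
    exact zero_ne_one h1
  · have hev : ∀ᶠ z in 𝓝 (0 : ℂ), ∀ i ∈ J, ‖b i * z‖ < 1 := by
      rw [Filter.eventually_all_finset]
      intro i _
      have hcont : Tendsto (fun z : ℂ => ‖b i * z‖) (𝓝 0) (𝓝 ‖b i * 0‖) :=
        ((continuous_const.mul continuous_id).norm).tendsto 0
      rw [mul_zero, norm_zero] at hcont
      exact hcont.eventually (gt_mem_nhds one_pos)
    filter_upwards [hev] with z hz
    have hne : ∀ i ∈ J, 1 - (b i * z) ^ (e i) ≠ 0 := by
      intro i hi h0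
      have h1 : (b i * z) ^ (e i) = 1 := by linear_combination -h0
      have h2 : ‖(b i * z) ^ (e i)‖ < 1 := by
        rw [norm_pow]
        exact pow_lt_one₀ (norm_nonneg _) (hz i hi) (by have := he i hi; omega)
      rw [h1, norm_one] at h2
      exact lt_irrefl _ h2
    have hsum : HasSum (fun n : ℕ => (fixCount f n : ℂ) / n * z ^ n)
        (∑ i ∈ J, ((β i : ℚ) : ℂ) * (-Complex.log (1 - (b i * z) ^ (e i)))) := by
      have h1 : HasSum (fun n : ℕ => ∑ i ∈ J, ((β i : ℚ) : ℂ) *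
          (if e i ∣ n then (e i : ℂ) * ((b i * z) ^ n / n) else 0))
          (∑ i ∈ J, ((β i : ℚ) : ℂ) * (-Complex.log (1 - (b i * z) ^ (e i)))) :=
        hasSum_sum fun i hi => (hasSum_log_ind (he i hi) (hz i hi)).mul_left _
      have hfun : (fun n : ℕ => (fixCount f n : ℂ) / n * z ^ n) =
          fun n : ℕ => ∑ i ∈ J, ((β i : ℚ) : ℂ) *
          (if e i ∣ n then (e i : ℂ) * ((b i * z) ^ n / n) else 0) := by
        funext n
        rcases Nat.eq_zero_or_pos n with hn | hn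
        · subst hn
          simp
        · rw [hF n hn, sum_div, sum_mul]
          refine sum_congr rfl fun i _ => ?_
          split_ifs
          · rw [mul_pow]; ring
          · simp
      rw [hfun]; exact h1
    have hzeta : zeta f z = Complex.exp (∑ i ∈ J, ((β i : ℚ) : ℂ) *
        (-Complex.log (1 - (b i * z) ^ (e i)))) := by
      unfold zeta
      congr 1
      have h1 := (hasSum_nat_add_iff' 1).2 hsum
      simp only [range_one, sum_singleton, Nat.cast_zero, div_zero, zero_mul, sub_zero] at h1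
      rw [← h1.tsum_eq]
      refine tsum_congr fun n => ?_
      push_cast; ring
    have hpow : zeta f z ^ k = ∏ i ∈ J, (1 - (b i * z) ^ (e i)) ^ (-(m i)) := by
      rw [hzeta, ← Complex.exp_nat_mul, mul_sum, Complex.exp_sum]
      refine prod_congr rfl fun i hi => ?_
      have h1 : (k : ℂ) * (((β i : ℚ) : ℂ) * (-Complex.log (1 - (b i * z) ^ (e i)))) =
          ((-(m i) : ℤ) : ℂ) * Complex.log (1 - (b i * z) ^ (e i)) := by
        have h2 : (k : ℂ) * ((β i : ℚ) : ℂ) = ((m i : ℤ) : ℂ) := by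
          have h3 := congrArg (fun x : ℚ => (x : ℂ)) (hm i hi)
          simp only [Rat.cast_mul, Rat.cast_natCast, Rat.cast_intCast] at h3
          exact h3
        rw [← mul_assoc, h2]; push_cast; ring
      rw [h1, Complex.exp_int_mul, Complex.exp_log (hne i hi)]
    rw [hpow, Polynomial.eval_prod, Polynomial.eval_prod, ← prod_mul_distrib]
    refine prod_congr rfl fun i hi => ?_
    rw [Polynomial.eval_pow, Polynomial.eval_pow, hpe]
    have h0 := hne i hi
    generalize (1 - (b i * z) ^ e i) = y at h0 ⊢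
    rw [← zpow_natCast, ← zpow_natCast, ← zpow_add₀ h0]
    congr 1
    omega

/-- the purely gcd case -/
theorem caseA {X : Type*} {f : X → X} (hfin : ∀ n, 1 ≤ n → {x : X | f^[n] x = x}.Finite)
    {d : ℕ} {A : Matrix (Fin d) (Fin d) ℤ} {c : ℝ}
    {r : ℕ → ℝ} (hc : 0 < c) (hr : ∀ n, 1 ≤ n → 0 < r n) (hrN : ∃ N, GcdSeq r N)
    (hf : ∀ n, 1 ≤ n → (fixCount f n : ℝ) = |((A ^ n - 1).det : ℝ)| * c ^ n * r n)
    (hD : ∀ n, 1 ≤ n → (A ^ n - 1).det ≠ 0) : RootRational f := by
  classical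
  obtain ⟨ι, hι, ξ, hξ, hsign⟩ := eig A
  obtain ⟨σ, hσ, hσ1, hσD⟩ := exists_sigma hD (hsign hD)
  obtain ⟨N, hN⟩ := hrN
  obtain ⟨x, hx⟩ := c_rational (F := fixCount f) (D := fun n => (A ^ n - 1).det) hc hr hN hσ hσ1 hσD hD hf
    (fun q hq => fix_cong f hq (hfin q hq.one_le)) (fun q hq => by
      have := det_cong A hq
      rw [this, pow_one])
  -- rational values of σ r
  have hrat : ∀ n, ∃ y : ℚ, 1 ≤ n → (y : ℝ) = σ n * r n := by
    intro n
    by_cases hn : 1 ≤ n
    · refine ⟨(fixCount f n : ℚ) / ((A ^ n - 1).det * x ^ n), fun _ => ?_⟩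
      have h1 : ((A ^ n - 1).det : ℝ) ≠ 0 := by exact_mod_cast hD n hn
      have h2 : (x : ℝ) ≠ 0 := by rw [← hx]; exact hc.ne'
      rw [Rat.cast_div, Rat.cast_mul, Rat.cast_pow, Rat.cast_natCast, Rat.cast_intCast,
        div_eq_iff (mul_ne_zero h1 (pow_ne_zero _ h2)), hf n hn, hσD n hn, ← hx]
      ring
    · exact ⟨0, fun h => absurd h hn⟩
  choose v hv using hrat
  obtain ⟨κ, hκ⟩ := gcd_expand v
  set K := 2 * N with hK
  have hK1 : 1 ≤ K := by have := hN.1; omega
  have hvgcd : ∀ n, 1 ≤ n → v n = v (Nat.gcd n K) := by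
    intro n hn
    have hg : 1 ≤ Nat.gcd n K := Nat.gcd_pos_of_pos_left K hn
    have h1 : (v n : ℝ) = v (Nat.gcd n K) := by
      rw [hv n hn, hv _ hg]
      have h2 := hσ.eq_gcd hK1 (Dvd.intro _ rfl : 2 ∣ K) (W := 1) le_rfl hn
      have h3 := hN.eq_gcd hK1 (Dvd.intro_left _ rfl : N ∣ K) (W := 1) le_rfl hn
      rw [pow_one] at h2 h3
      rw [h2, h3]
    exact_mod_cast h1
  refine root_rational_of (I := Finset ι × ℕ) (univ ×ˢ K.divisors)
    (fun i => (c : ℂ) * ∏ j ∈ i.1, ξ j) (fun i => i.2)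
    (fun i hi => Nat.pos_of_mem_divisors (mem_product.1 hi).2)
    (fun i => (-1) ^ (univ \ i.1).card * (κ i.2 / i.2)) fun n hn => ?_
  have hDn : (∏ j, (ξ j ^ n - 1)) = ∑ T : Finset ι, (-1 : ℂ) ^ (univ \ T).card * (∏ j ∈ T, ξ j) ^ n := by
    have h2 := Finset.prod_add (fun j => ξ j ^ n) (fun _ => (-1 : ℂ)) (univ : Finset ι)
    have h3 : (∏ j, (ξ j ^ n - 1)) = ∏ j, (ξ j ^ n + -1) := prod_congr rfl fun j _ => by ring
    rw [h3, h2, powerset_univ]
    refine sum_congr rfl fun T _ => ?_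
    rw [prod_const, prod_pow, mul_comm]
  have h1 : (fixCount f n : ℂ) = (∏ j, (ξ j ^ n - 1)) * (c : ℂ) ^ n * ((v n : ℚ) : ℂ) := by
    have h2 : (fixCount f n : ℝ) = ((A ^ n - 1).det : ℝ) * c ^ n * (v n : ℝ) := by
      rw [hf n hn, hσD n hn, hv n hn]; ring
    have h3 := congrArg (fun x : ℝ => (x : ℂ)) h2
    simp only [Complex.ofReal_mul, Complex.ofReal_natCast, Complex.ofReal_intCast,
      Complex.ofReal_pow, Complex.ofReal_ratCast] at h3
    rw [h3, hξ n hn]
  have h2 : ((v n : ℚ) : ℂ) = ∑ d ∈ K.divisors, if d ∣ n then ((κ d : ℚ) : ℂ) else 0 := by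
    rw [hvgcd n hn, hκ K hK1 n, Rat.cast_sum]
    refine sum_congr rfl fun e _ => ?_
    split_ifs
    · rfl
    · exact Rat.cast_zero
  rw [h1, h2, hDn, sum_product, sum_mul, sum_mul]
  refine sum_congr rfl fun T _ => ?_
  rw [mul_sum]
  refine sum_congr rfl fun e he => ?_
  have he0 : (e : ℂ) ≠ 0 := by
    have := Nat.pos_of_mem_divisors he
    exact_mod_cast (by omega : e ≠ 0)
  dsimp only
  split_ifs with hdvd
  · push_cast
    rw [mul_pow]
    field_simp
  · simp

/-- degenerate case: some determinant vanishes -/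
theorem caseZero {X : Type*} {f : X → X} (hfin : ∀ n, 1 ≤ n → {x : X | f^[n] x = x}.Finite)
    {d : ℕ} {A : Matrix (Fin d) (Fin d) ℤ} {G : ℕ → ℝ}
    (hf : ∀ n, 1 ≤ n → (fixCount f n : ℝ) = |((A ^ n - 1).det : ℝ)| * G n)
    {n₀ : ℕ} (hn₀ : 1 ≤ n₀) (h0 : (A ^ n₀ - 1).det = 0) : RootRational f := by
  obtain ⟨ι, hι, ξ, hξ, _⟩ := eig A
  have hz : ∀ m, 1 ≤ m → fixCount f m = 0 := by
    intro m hm
    -- the determinant at n₀ * m vanishes
    have h1 := hξ n₀ hn₀
    rw [h0, Int.cast_zero] at h1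
    obtain ⟨j, _, hj⟩ := prod_eq_zero_iff.1 h1.symm
    have hnm : 1 ≤ n₀ * m := Nat.mul_pos hn₀ hm
    have h2 : (((A ^ (n₀ * m) - 1).det : ℤ) : ℂ) = 0 := by
      rw [hξ _ hnm]
      refine prod_eq_zero (mem_univ j) ?_
      rw [pow_mul, sub_eq_zero.1 hj, one_pow, sub_self]
    have h3 : (A ^ (n₀ * m) - 1).det = 0 := by exact_mod_cast h2
    have h4 : fixCount f (n₀ * m) = 0 := by
      have := hf _ hnm
      rw [h3, Int.cast_zero, abs_zero, zero_mul] at this
      exact_mod_cast this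
    unfold fixCount at h4 ⊢
    rw [Set.ncard_eq_zero (hfin _ hnm)] at h4
    rw [Set.ncard_eq_zero (hfin _ hm), Set.eq_empty_iff_forall_notMem]
    intro x hx
    have hx' : f^[m] x = x := hx
    have h5 : x ∈ {x : X | f^[n₀ * m] x = x} := by
      have h6 : f^[m * n₀] x = x := by
        rw [Function.iterate_mul]
        exact Function.iterate_fixed hx' n₀
      rw [mul_comm] at h6
      exact h6
    rw [h4] at h5
    exact h5
  refine ⟨1, le_rfl, 1, 1, one_ne_zero, Eventually.of_forall fun z => ?_⟩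
  have h1 : zeta f z = 1 := by
    unfold zeta
    have h2 : (fun n : ℕ => (fixCount f (n + 1) : ℂ) / (n + 1 : ℂ) * z ^ (n + 1)) = fun _ => 0 := by
      funext n
      rw [hz (n + 1) (by omega)]; simp
    rw [h2, tsum_zero, Complex.exp_zero]
  rw [h1]; simp

end Pool.Agent.R310.FAD
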