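import Pool.Agent.R310.FAD.Ind

/-! A meromorphic continuation kills Abel means on a punctured arc. -/

set_option autoImplicit false

open Filter Topology Finset

namespace Pool.Agent.R310.FAD

/-- the exponential generating series attached to coefficients `c` -/
noncomputable def Zc (c : ℕ → ℂ) (z : ℂ) : ℂ := Complex.exp (∑' n : ℕ, c (n + 1) / (n + 1 : ℂ) * z ^ (n + 1))

lemma hasDerivAt_series {c : ℕ → ℂ} {R : ℝ} (hR : 0 < R) {C : ℝ}
    (hc : ∀ n, 1 ≤ n → ‖c n‖ * R ^ n ≤ C) {z : ℂ} (hz : ‖z‖ < R) :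
    HasDerivAt (fun z => ∑' n : ℕ, c (n + 1) / (n + 1 : ℂ) * z ^ (n + 1))
      (∑' n : ℕ, c (n + 1) * z ^ n) z := by
  have hC : 0 ≤ C := le_trans (by positivity) (hc 1 le_rfl)
  obtain ⟨ρ, hρ1, hρ2⟩ := exists_between hz
  have hρ0 : 0 < ρ := lt_of_le_of_lt (norm_nonneg _) hρ1
  have hu : Summable (fun n : ℕ => C / R * (ρ / R) ^ n) :=
    (summable_geometric_of_lt_one (by positivity) ((div_lt_one hR).2 hρ2)).mul_left _
  have hb : ∀ (n : ℕ) (y : ℂ), y ∈ Metric.ball (0 : ℂ) ρ → ‖c (n + 1) * y ^ n‖ ≤ C / R * (ρ / R) ^ n := by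
    intro n y hy
    rw [mem_ball_zero_iff] at hy
    have h1 := hc (n + 1) (by omega)
    rw [norm_mul, norm_pow, div_pow, div_mul_div_comm, le_div_iff₀ (by positivity)]
    calc ‖c (n + 1)‖ * ‖y‖ ^ n * (R * R ^ n) = (‖c (n + 1)‖ * R ^ (n + 1)) * ‖y‖ ^ n := by ring
      _ ≤ C * ρ ^ n := by gcongr
  have h0 : ∀ (n : ℕ) (y : ℂ), y ∈ Metric.ball (0 : ℂ) ρ →
      HasDerivAt (fun z : ℂ => c (n + 1) / (n + 1 : ℂ) * z ^ (n + 1)) (c (n + 1) * y ^ n) y := by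
    intro n y _
    have h1 := (hasDerivAt_pow (n + 1) y).const_mul (c (n + 1) / (n + 1 : ℂ))
    have h2 : c (n + 1) / (n + 1 : ℂ) * (((n + 1 : ℕ) : ℂ) * y ^ (n + 1 - 1)) = c (n + 1) * y ^ n := by
      have h3 : (n + 1 : ℂ) ≠ 0 := by exact_mod_cast Nat.succ_ne_zero n
      rw [Nat.add_sub_cancel]
      push_cast
      field_simp
    rw [h2] at h1
    exact h1
  refine hasDerivAt_tsum_of_isPreconnected (t := Metric.ball (0 : ℂ) ρ) (y₀ := 0) hu
    Metric.isOpen_ball (convex_ball _ _).isPreconnected h0 hb ?_ ?_ ?_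
  · rw [mem_ball_zero_iff, norm_zero]; exact hρ0
  · have h3 : (fun n : ℕ => c (n + 1) / (n + 1 : ℂ) * (0 : ℂ) ^ (n + 1)) = fun _ => 0 := by
      funext n; rw [zero_pow (by omega), mul_zero]
    rw [h3]; exact summable_zero
  · rwa [mem_ball_zero_iff]

lemma logderiv_series {c : ℕ → ℂ} {R : ℝ} (hR : 0 < R) {C : ℝ}
    (hc : ∀ n, 1 ≤ n → ‖c n‖ * R ^ n ≤ C) {z : ℂ} (hz : ‖z‖ < R) :
    z * deriv (Zc c) z / Zc c z = ∑' n : ℕ, c (n + 1) * z ^ (n + 1) := by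
  have h1 := (hasDerivAt_series hR hc hz).cexp
  have h2 : deriv (Zc c) z = Zc c z * ∑' n : ℕ, c (n + 1) * z ^ n := h1.deriv
  have h3 : Zc c z ≠ 0 := Complex.exp_ne_zero _
  rw [h2, mul_div_assoc, mul_div_cancel_left₀ _ h3, ← tsum_mul_left]
  exact tsum_congr fun n => by ring

theorem merom_arc {c : ℕ → ℂ} {R : ℝ} (hR : 0 < R) {C : ℝ} (hc : ∀ n, 1 ≤ n → ‖c n‖ * R ^ n ≤ C)
    {U : Set ℂ} (hU : IsOpen U) {g : ℂ → ℂ} (hg : MeromorphicOn g U)
    (hgz : ∀ z ∈ U, ‖z‖ < R → g z = Zc c z) {z0 : ℂ} (hz0U : z0 ∈ U) (hz0 : ‖z0‖ = R) :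
    ∃ δ : ℝ, 0 < δ ∧ ∀ y : ℂ, ‖y‖ = 1 → y ≠ z0 / R → ‖y - z0 / R‖ < δ →
      Ab (fun n => (if n = 0 then 0 else c n * (R : ℂ) ^ n) * y ^ n) 0 := by
  set h : ℂ → ℂ := fun z => z * deriv g z / g z with hh
  have hRc : (R : ℂ) ≠ 0 := by exact_mod_cast hR.ne'
  have hmer : MeromorphicAt h z0 :=
    ((MeromorphicAt.id z0).mul (hg z0 hz0U).deriv).div (hg z0 hz0U)
  have h1 := hmer.eventually_analyticAt
  have h2 : ∀ᶠ z in 𝓝[≠] z0, z ∈ U := nhdsWithin_le_nhds (hU.mem_nhds hz0U)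
  have h3 := h1.and h2
  rw [eventually_nhdsWithin_iff, Metric.eventually_nhds_iff] at h3
  obtain ⟨δ', hδ', h4⟩ := h3
  refine ⟨δ' / R, by positivity, fun y hy hy1 hy2 => ?_⟩
  have h5 : AnalyticAt ℂ h (R * y) ∧ (R * y : ℂ) ∈ U := by
    refine h4 ?_ ?_
    · rw [dist_eq_norm]
      have h6 : (R * y : ℂ) - z0 = R * (y - z0 / R) := by field_simp
      rw [h6, norm_mul, Complex.norm_real, Real.norm_of_nonneg hR.le]
      rw [lt_div_iff₀ hR] at hy2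
      linarith
    · intro h6
      apply hy1
      rw [Set.mem_singleton_iff] at h6
      rw [← h6]; field_simp
  obtain ⟨han, hyU⟩ := h5
  -- radial approach
  have hrad : Tendsto (fun r : ℝ => (r : ℂ) * (R * y)) (𝓝[<] (1 : ℝ)) (𝓝 (R * y)) := by
    refine Tendsto.mono_left ?_ nhdsWithin_le_nhds
    have : Tendsto (fun r : ℝ => (r : ℂ) * (R * y)) (𝓝 1) (𝓝 (((1 : ℝ) : ℂ) * (R * y))) :=
      ((Complex.continuous_ofReal).mul continuous_const).tendsto 1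
    simpa using this
  have hlim : Tendsto (fun r : ℝ => (1 - (r : ℂ)) * h ((r : ℂ) * (R * y))) (𝓝[<] (1 : ℝ)) (𝓝 0) := by
    have h6 : Tendsto (fun r : ℝ => h ((r : ℂ) * (R * y))) (𝓝[<] (1 : ℝ)) (𝓝 (h (R * y))) :=
      han.continuousAt.tendsto.comp hrad
    have h7 : Tendsto (fun r : ℝ => (1 - (r : ℂ))) (𝓝[<] (1 : ℝ)) (𝓝 0) := by
      refine Tendsto.mono_left ?_ nhdsWithin_le_nhds
      have : Tendsto (fun r : ℝ => (1 - (r : ℂ))) (𝓝 1) (𝓝 (1 - ((1 : ℝ) : ℂ))) :=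
        (continuous_const.sub Complex.continuous_ofReal).tendsto 1
      simpa using this
    simpa using h7.mul h6
  refine hlim.congr' ?_
  have hUev : ∀ᶠ r : ℝ in 𝓝[<] (1 : ℝ), (r : ℂ) * (R * y) ∈ U := hrad.eventually (hU.mem_nhds hyU)
  filter_upwards [ev_unit, hUev] with r hr hrU
  have hnorm : ‖(r : ℂ) * (R * y)‖ < R := by
    rw [norm_mul, norm_mul, hy, mul_one, Complex.norm_real, Complex.norm_real,
      Real.norm_of_nonneg hR.le, Real.norm_of_nonneg hr.1]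
    calc r * R < 1 * R := mul_lt_mul_of_pos_right hr.2 hR
      _ = R := one_mul R
  have heq : g =ᶠ[𝓝 ((r : ℂ) * (R * y))] Zc c := by
    filter_upwards [hU.mem_nhds hrU, (isOpen_lt continuous_norm continuous_const).mem_nhds hnorm]
      with z hz1 hz2
    exact hgz z hz1 hz2
  have h6 : h ((r : ℂ) * (R * y)) = ∑' n : ℕ, c (n + 1) * ((r : ℂ) * (R * y)) ^ (n + 1) := by
    rw [← logderiv_series hR hc hnorm, hh]; dsimp only
    rw [heq.deriv_eq, heq.eq_of_nhds]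
  unfold ab
  congr 1
  rw [h6]
  have hb : Bdd (fun n => (if n = 0 then 0 else c n * (R : ℂ) ^ n) * y ^ n) := by
    have hC : 0 ≤ C := le_trans (by positivity) (hc 1 le_rfl)
    refine Bdd.mul ⟨C, fun n => ?_⟩ (Bdd.pow hy.le)
    dsimp only
    split_ifs with h0
    · rw [norm_zero]; exact hC
    · rw [norm_mul, norm_pow, Complex.norm_real, Real.norm_of_nonneg hR.le]
      exact hc n (by omega)
  rw [(summ hb hr.1 hr.2).tsum_eq_zero_add]
  simp only [if_true, zero_mul, zero_add, Nat.add_eq_zero_iff, one_ne_zero, and_false, if_false]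
  refine tsum_congr fun n => ?_
  rw [mul_pow, mul_pow]; ring

end Pool.Agent.R310.FAD
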