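import Pool.Agent.R310.FAD.Lin
import Pool.Agent.R310.FAD.AppE
import Pool.Agent.R310.FAD.Merom

/-! The natural boundary in the case of a genuinely p-adic factor. -/

set_option autoImplicit false

open Filter Topology Finset

namespace Pool.Agent.R310.FAD

/-- exponential growth rate of an integer sequence -/
lemma growth {F : ℕ → ℕ} (hF : ∀ n, 1 ≤ n → 1 ≤ F n) {ρ : ℝ} (hρ : 0 < ρ) {C : ℝ}
    (hC : ∀ n, 1 ≤ n → (F n : ℝ) ≤ C * ρ ^ n)
    (hno : ∀ (C θ : ℝ), 0 ≤ θ → θ < 1 → ¬ ∀ n, 1 ≤ n → (F n : ℝ) / ρ ^ n ≤ C * θ ^ n) :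
    Real.exp (limsup (fun n : ℕ => Real.log (F n) / n) atTop) = ρ := by
  have hCpos : 0 < C := by
    have h1 := hC 1 le_rfl
    have h2 : (1 : ℝ) ≤ F 1 := by exact_mod_cast hF 1 le_rfl
    rw [pow_one] at h1
    by_contra h3
    have : C * ρ ≤ 0 := mul_nonpos_of_nonpos_of_nonneg (not_lt.1 h3) hρ.le
    linarith
  set u : ℕ → ℝ := fun n => Real.log (F n) / n with hu
  have hub : ∀ n, 1 ≤ n → u n ≤ Real.log C / n + Real.log ρ := by
    intro n hn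
    have hn0 : (0 : ℝ) < n := by exact_mod_cast hn
    have hFn : (0 : ℝ) < F n := by exact_mod_cast hF n hn
    have h1 : Real.log (F n) ≤ Real.log (C * ρ ^ n) := Real.log_le_log hFn (hC n hn)
    rw [Real.log_mul hCpos.ne' (by positivity), Real.log_pow] at h1
    rw [hu]; dsimp only
    rw [div_le_iff₀ hn0]
    have h2 : (Real.log C / n + Real.log ρ) * n = Real.log C + n * Real.log ρ := by field_simp
    rw [h2]; exact h1
  have hlb : ∀ n, 0 ≤ u n := by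
    intro n
    rw [hu]; dsimp only
    rcases Nat.eq_zero_or_pos n with h0 | h0
    · rw [h0]; simp
    · apply div_nonneg _ (Nat.cast_nonneg n)
      exact Real.log_nonneg (by exact_mod_cast hF n h0)
  have hlim : Tendsto (fun n : ℕ => Real.log C / n + Real.log ρ) atTop (𝓝 (Real.log ρ)) := by
    have := (tendsto_const_div_atTop_nhds_zero_nat (Real.log C)).add_const (Real.log ρ)
    rwa [zero_add] at this
  have hev : u ≤ᶠ[atTop] fun n : ℕ => Real.log C / n + Real.log ρ := by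
    filter_upwards [eventually_ge_atTop 1] with n hn using hub n hn
  have hbdd : IsBoundedUnder (· ≤ ·) atTop u := hlim.isBoundedUnder_le.mono_le hev
  have hcobdd : IsCoboundedUnder (· ≤ ·) atTop u :=
    IsBoundedUnder.isCoboundedUnder_le ⟨0, by
      rw [eventually_map]; exact Eventually.of_forall fun n => hlb n⟩
  have hle : limsup u atTop ≤ Real.log ρ := by
    rw [← hlim.limsup_eq]
    exact limsup_le_limsup hev hcobdd hlim.isBoundedUnder_le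
  have hge : Real.log ρ ≤ limsup u atTop := by
    by_contra hlt
    push Not at hlt
    obtain ⟨β, hβ1, hβ2⟩ := exists_between hlt
    have h1 := eventually_lt_of_limsup_lt hβ1 hbdd
    rw [eventually_atTop] at h1
    obtain ⟨N, hN⟩ := h1
    set θ := Real.exp (β - Real.log ρ) with hθ
    have hθ0 : 0 < θ := Real.exp_pos _
    have hθ1 : θ < 1 := by rw [hθ, Real.exp_lt_one_iff]; linarith
    refine hno (1 + ∑ n ∈ range N, (F n : ℝ) / ρ ^ n / θ ^ n) θ hθ0.le hθ1 fun n hn => ?_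
    have hsum0 : 0 ≤ ∑ n ∈ range N, (F n : ℝ) / ρ ^ n / θ ^ n :=
      sum_nonneg fun i _ => by positivity
    rcases le_or_gt N n with h | h
    · have h2 := (hN n h).le
      rw [hu] at h2; dsimp only at h2
      have hn0 : (0 : ℝ) < n := by exact_mod_cast hn
      rw [div_le_iff₀ hn0] at h2
      have hFn : (0 : ℝ) < F n := by exact_mod_cast hF n hn
      have h3 : (F n : ℝ) ≤ Real.exp (β * n) := by
        rw [← Real.exp_log hFn]; exact Real.exp_le_exp.2 h2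
      have h4 : (F n : ℝ) / ρ ^ n ≤ θ ^ n := by
        rw [div_le_iff₀ (by positivity)]
        refine h3.trans (le_of_eq ?_)
        rw [hθ, ← Real.exp_nat_mul]
        conv_rhs => rw [← Real.exp_log hρ, ← Real.exp_nat_mul, ← Real.exp_add, Real.exp_log hρ]
        congr 1; ring
      calc (F n : ℝ) / ρ ^ n ≤ 1 * θ ^ n := by rw [one_mul]; exact h4
        _ ≤ (1 + ∑ n ∈ range N, (F n : ℝ) / ρ ^ n / θ ^ n) * θ ^ n := by
            gcongr; linarith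
    · have h2 : (F n : ℝ) / ρ ^ n / θ ^ n ≤ ∑ n ∈ range N, (F n : ℝ) / ρ ^ n / θ ^ n :=
        single_le_sum (f := fun n => (F n : ℝ) / ρ ^ n / θ ^ n) (fun i _ => by positivity)
          (mem_range.2 h)
      calc (F n : ℝ) / ρ ^ n = ((F n : ℝ) / ρ ^ n / θ ^ n) * θ ^ n := by field_simp
        _ ≤ (1 + ∑ n ∈ range N, (F n : ℝ) / ρ ^ n / θ ^ n) * θ ^ n := by
            gcongr; linarith
  rw [le_antisymm hle hge, Real.exp_log hρ]

/-- a gcd sequence is bounded on `n ≥ 1` -/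
lemma GcdSeq.bdd {a : ℕ → ℝ} {N : ℕ} (h : GcdSeq a N) : ∃ C : ℝ, 0 < C ∧ ∀ n, 1 ≤ n → |a n| ≤ C := by
  refine ⟨1 + ∑ d ∈ N.divisors, |a d|, ?_, fun n hn => ?_⟩
  · have : 0 ≤ ∑ d ∈ N.divisors, |a d| := sum_nonneg fun _ _ => abs_nonneg _
    linarith
  · rw [h.2 n hn]
    have h1 : |a (Nat.gcd n N)| ≤ ∑ d ∈ N.divisors, |a d| :=
      single_le_sum (f := fun d => |a d|) (fun _ _ => abs_nonneg _)
        (Nat.mem_divisors.2 ⟨Nat.gcd_dvd_right n N, by have := h.1; omega⟩)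
    linarith

lemma GcdSeq.mul_pow {a : ℕ → ℝ} {N p : ℕ} (h : GcdSeq a N) (hp : Nat.Coprime N p) (hp1 : 1 ≤ p)
    {n : ℕ} (hn : 1 ≤ n) (k : ℕ) : a (n * p ^ k) = a n := by
  have h1 : 1 ≤ n * p ^ k := Nat.mul_pos hn (Nat.one_le_pow k p hp1)
  rw [h.2 _ h1, h.2 n hn]
  congr 1
  exact Nat.Coprime.gcd_mul_right_cancel n (Nat.Coprime.pow_left k hp.symm)

/-- the real factor -/
noncomputable def aE (σ r : ℕ → ℝ) (S : Finset ℕ) (s t : ℕ → ℕ → ℝ) (n : ℕ) : ℝ :=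
  σ n * r n * ∏ p ∈ S, ep p (s p) (t p) n

/-- the factor is not periodic if some exponent is nonzero -/
lemma aE_not_periodic {σ r : ℕ → ℝ} {S : Finset ℕ} {s t : ℕ → ℕ → ℝ} (hS : ∀ p ∈ S, p.Prime)
    (hσ : ∀ n, 1 ≤ n → |σ n| = 1) (hr : ∀ n, 1 ≤ n → 0 < r n) {N : ℕ} (hrN : GcdSeq r N)
    (hst : ∀ p ∈ S, (∀ n, 1 ≤ n → 0 ≤ s p n ∧ 0 ≤ t p n) ∧
      (∃ N, GcdSeq (s p) N ∧ Nat.Coprime N p) ∧ (∃ N, GcdSeq (t p) N ∧ Nat.Coprime N p))
    {p : ℕ} (hp : p ∈ S) {n₁ : ℕ} (hn₁ : 1 ≤ n₁) (hne : ¬ (s p n₁ = 0 ∧ t p n₁ = 0)) {K : ℕ}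
    (hK : 1 ≤ K) (hper : ∀ m n, 1 ≤ m → 1 ≤ n → m ≡ n [MOD K] →
      aE σ r S s t m = aE σ r S s t n) : False := by
  obtain ⟨C, hC, hrC⟩ := hrN.bdd
  have hpp := hS p hp
  obtain ⟨hnn, ⟨Ns, hNs, hNsp⟩, ⟨Nt, hNt, hNtp⟩⟩ := hst p hp
  obtain ⟨hs0, ht0⟩ := hnn n₁ hn₁
  set κ := s p n₁ + t p n₁ with hκ
  have hκ0 : 0 < κ := by
    rcases lt_or_eq_of_le hs0 with h | h
    · linarith
    · rcases lt_or_eq_of_le ht0 with h' | h'
      · linarith
      · exact absurd ⟨h.symm, h'.symm⟩ hne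
  -- upper bound along n₁ * p ^ k
  have hup : ∀ k : ℕ, |aE σ r S s t (n₁ * p ^ k)| ≤ C * ((2 : ℝ) ^ (-κ)) ^ k := by
    intro k
    have hm : 1 ≤ n₁ * p ^ k := Nat.mul_pos hn₁ (Nat.one_le_pow k p hpp.one_le)
    unfold aE
    rw [abs_mul, abs_mul, hσ _ hm, one_mul]
    have h1 : ∏ q ∈ S, ep q (s q) (t q) (n₁ * p ^ k) ≤ ep p (s p) (t p) (n₁ * p ^ k) := by
      rw [← mul_prod_erase S _ hp]
      have h2 : ∏ q ∈ S.erase p, ep q (s q) (t q) (n₁ * p ^ k) ≤ 1 := by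
        refine prod_le_one (fun q hq => (ep_pos (hS q (mem_of_mem_erase hq)) _ _ hm).le) fun q hq => ?_
        obtain ⟨h3, h4⟩ := (hst q (mem_of_mem_erase hq)).1 _ hm
        exact ep_le_one (hS q (mem_of_mem_erase hq)) hm h3 h4
      have h3 := (ep_pos hpp (s p) (t p) hm).le
      calc _ ≤ ep p (s p) (t p) (n₁ * p ^ k) * 1 := mul_le_mul_of_nonneg_left h2 h3
        _ = _ := mul_one _
    have h2 : 0 ≤ ∏ q ∈ S, ep q (s q) (t q) (n₁ * p ^ k) :=
      prod_nonneg fun q hq => (ep_pos (hS q hq) _ _ hm).le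
    have hs1 := hNs.mul_pow hNsp hpp.one_le hn₁ k
    have ht1 := hNt.mul_pow hNtp hpp.one_le hn₁ k
    have h3 : ep p (s p) (t p) (n₁ * p ^ k) ≤ (2 : ℝ) ^ (-((k : ℝ) * κ)) := by
      refine ep_small hpp hm (by rw [hs1]; exact hs0) (by rw [ht1]; exact ht0) hκ0
        (by rw [hs1, ht1]) ?_
      have : Fact p.Prime := ⟨hpp⟩
      rw [← padicValNat_dvd_iff_le (by omega)]
      exact Dvd.intro_left _ rfl
    have h4 : (2 : ℝ) ^ (-((k : ℝ) * κ)) = ((2 : ℝ) ^ (-κ)) ^ k := by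
      rw [← Real.rpow_natCast, ← Real.rpow_mul (by norm_num)]
      congr 1; ring
    rw [h4] at h3
    rw [abs_of_nonneg h2]
    exact mul_le_mul (hrC _ hm) (h1.trans h3) h2 hC.le
  -- lower bound by periodicity
  have hpos : ∀ n, 1 ≤ n → 0 < |aE σ r S s t n| := by
    intro n hn
    unfold aE
    rw [abs_mul, abs_mul, hσ n hn, one_mul]
    exact mul_pos (abs_pos.2 (hr n hn).ne')
      (abs_pos.2 (prod_pos fun q hq => ep_pos (hS q hq) _ _ hn).ne')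
  obtain ⟨δ, hδ, hδ'⟩ := exists_kappa (range (2 * K)) (fun n => |aE σ r S s t n|)
    (fun _ _ => abs_nonneg _)
  have hlow : ∀ n, 1 ≤ n → δ ≤ |aE σ r S s t n| := by
    intro n hn
    have h1 : 1 ≤ n % K + K := by omega
    have h2 : n % K + K < 2 * K := by
      have := Nat.mod_lt n (by omega : 0 < K); omega
    have h3 : n ≡ n % K + K [MOD K] := by
      have : n % K + K ≡ n % K [MOD K] := by
        unfold Nat.ModEq; simp
      exact ((this.trans (Nat.mod_modEq n K))).symm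
    rw [hper n _ hn h1 h3]
    rcases hδ' _ (mem_range.2 h2) with h4 | h4
    · exact absurd h4 (hpos _ h1).ne'
    · exact h4
  -- contradiction
  have hlim : Tendsto (fun k : ℕ => C * ((2 : ℝ) ^ (-κ)) ^ k) atTop (𝓝 0) := by
    have h1 := (tendsto_pow_atTop_nhds_zero_of_lt_one (Real.rpow_nonneg (by norm_num : (0 : ℝ) ≤ 2) (-κ))
      (Real.rpow_lt_one_of_one_lt_of_neg (by norm_num) (by linarith))).const_mul C
    rwa [mul_zero] at h1
  obtain ⟨k, hk⟩ := (hlim.eventually (gt_mem_nhds hδ)).exists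
  have h1 := hup k
  have h2 := hlow (n₁ * p ^ k) (Nat.mul_pos hn₁ (Nat.one_le_pow k p hpp.one_le))
  linarith

lemma aE_appr {σ r : ℕ → ℝ} {S : Finset ℕ} {s t : ℕ → ℕ → ℝ} (hS : ∀ p ∈ S, p.Prime)
    (hσ : GcdSeq σ 2) {N : ℕ} (hrN : GcdSeq r N)
    (hst : ∀ p ∈ S, (∀ n, 1 ≤ n → 0 ≤ s p n ∧ 0 ≤ t p n) ∧
      (∃ N, GcdSeq (s p) N ∧ Nat.Coprime N p) ∧ (∃ N, GcdSeq (t p) N ∧ Nat.Coprime N p)) :
    ∃ M, 1 ≤ M ∧ Appr (fun n => (aE σ r S s t n : ℂ)) M := by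
  choose! Ns hNs using fun p hp => (hst p hp).2.1
  choose! Nt hNt using fun p hp => (hst p hp).2.2
  set M := 2 * N * ∏ p ∈ S, (p * Ns p * Nt p) with hM
  have hM1 : 1 ≤ M := by
    rw [hM]
    refine Nat.mul_pos (Nat.mul_pos two_pos hrN.1) (prod_pos fun p hp => ?_)
    exact Nat.mul_pos (Nat.mul_pos (hS p hp).pos (hNs p hp).1.1) (hNt p hp).1.1
  have hdvd : ∀ p ∈ S, p * Ns p * Nt p ∣ M := fun p hp =>
    (dvd_prod_of_mem (fun p => p * Ns p * Nt p) hp).trans (Dvd.intro_left _ rfl)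
  refine ⟨M, hM1, ?_⟩
  have h1 : Appr (fun n => (σ n : ℂ)) M := Appr.of_gcdSeq hσ hM1 ⟨N * ∏ p ∈ S, (p * Ns p * Nt p), by
    rw [hM]; ring⟩
  have h2 : Appr (fun n => (r n : ℂ)) M := Appr.of_gcdSeq hrN hM1 ⟨2 * ∏ p ∈ S, (p * Ns p * Nt p), by
    rw [hM]; ring⟩
  have h3 : Appr (fun n => ∏ p ∈ S, (ep p (s p) (t p) n : ℂ)) M := by
    refine Appr.prod S hM1 fun p hp => ?_
    refine Appr.of_ep (hS p hp) (hst p hp).1 (hNs p hp).1 (hNt p hp).1 hM1 ?_ ?_ ?_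
    · exact ((Dvd.intro _ rfl : p ∣ p * Ns p).trans (Dvd.intro _ rfl)).trans (hdvd p hp)
    · exact ((Dvd.intro_left _ rfl : Ns p ∣ p * Ns p).trans (Dvd.intro _ rfl)).trans (hdvd p hp)
    · exact (Dvd.intro_left _ rfl : Nt p ∣ p * Ns p * Nt p).trans (hdvd p hp)
  have h4 := (h1.mul hM1 h2).mul hM1 h3
  have h5 : (fun n => (aE σ r S s t n : ℂ)) =
      fun n => (σ n : ℂ) * (r n : ℂ) * ∏ p ∈ S, (ep p (s p) (t p) n : ℂ) := by
    funext n; unfold aE; push_cast; rfl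
  rw [h5]; exact h4

end Pool.Agent.R310.FAD
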