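import Pool.Agent.R310.FAD.Def
import Pool.Agent.Helper919.NonRes

/-! Congruences for fixed point counts and determinants at primes. -/

set_option autoImplicit false

open Filter Topology Finset

namespace Pool.Agent.R310.FAD

/-- primes modulo which a non-square is a non-residue -/
theorem exists_inert_prime (G : ℕ) (hG : ¬ IsSquare G) (B : ℕ) :
    ∃ q : ℕ, B < q ∧ q.Prime ∧ Odd q ∧ (G : ZMod q) ^ (q / 2) = -1 := by
  have hG0 : G ≠ 0 := by rintro rfl; exact hG ⟨0, by simp⟩
  have hGZ : ¬ IsSquare (G : ℤ) := by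
    intro h
    exact hG (Int.isSquare_natCast_iff.1 h)
  obtain ⟨d, hdo, hd⟩ := Pool.Agent.Helper919.exists_jacobi_neg_one (G : ℤ) hGZ
  have hM : 4 * G ≠ 0 := by omega
  have : NeZero (4 * G) := ⟨hM⟩
  have : NeZero d := ⟨by rintro rfl; simp at hdo⟩
  have hcop : Nat.Coprime d (4 * G) := by
    apply Nat.Coprime.mul_right
    · have : Nat.Coprime d 2 := by
        rw [Nat.coprime_comm, Nat.coprime_two_left]; exact hdo
      exact Nat.Coprime.pow_right 2 this
    · by_contra hcon
      have : jacobiSym (G : ℤ) d = 0 := by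
        rw [jacobiSym.eq_zero_iff_not_coprime]
        · rw [Int.gcd_natCast_natCast]
          intro h
          exact hcon (Nat.coprime_comm.1 h)
      rw [this] at hd
      norm_num at hd
  have hunit : IsUnit ((d : ℕ) : ZMod (4 * G)) := (ZMod.isUnit_iff_coprime d (4 * G)).2 hcop
  obtain ⟨q, hqB, hqp, hqd⟩ := Nat.forall_exists_prime_gt_and_eq_mod hunit B
  have hmod : q % (4 * G) = d % (4 * G) := (ZMod.natCast_eq_natCast_iff' _ _ _).1 hqd
  have hq4 : q % 2 = 1 := by
    have h1 : q % (4 * G) % 2 = q % 2 := Nat.mod_mod_of_dvd q (by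
      exact Dvd.dvd.mul_right (by norm_num) G)
    have h2 : d % (4 * G) % 2 = d % 2 := Nat.mod_mod_of_dvd d (by
      exact Dvd.dvd.mul_right (by norm_num) G)
    rw [← h1, hmod, h2]
    exact Nat.odd_iff.1 hdo
  have hqo : Odd q := Nat.odd_iff.2 hq4
  have hJ : jacobiSym (G : ℤ) q = -1 := by
    have k1 := jacobiSym.mod_right (G : ℤ) hqo
    have k2 := jacobiSym.mod_right (G : ℤ) hdo
    rw [Int.natAbs_natCast] at k1 k2
    rw [k1, hmod, ← k2]
    exact hd
  have : Fact q.Prime := ⟨hqp⟩
  have hL : legendreSym q (G : ℤ) = -1 := by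
    rw [jacobiSym.legendreSym.to_jacobiSym]; exact hJ
  refine ⟨q, hqB, hqp, hqo, ?_⟩
  have := legendreSym.eq_pow q (G : ℤ)
  rw [hL] at this
  push_cast at this
  exact this.symm

/-- Fermat type congruence for fixed points -/
theorem fix_cong {X : Type*} (f : X → X) {q : ℕ} (hq : q.Prime)
    (hfin : {x : X | f^[q] x = x}.Finite) : fixCount f q ≡ fixCount f 1 [MOD q] := by
  classical
  have : Fact q.Prime := ⟨hq⟩
  set Y := {x : X | f^[q] x = x} with hY
  have hYf : Finite Y := hfin
  have : Fintype Y := Fintype.ofFinite Y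
  have hmap : ∀ x : X, x ∈ Y → f x ∈ Y := by
    intro x hx
    rw [hY, Set.mem_ofPred_eq] at hx ⊢
    rw [← Function.iterate_succ_apply, Function.iterate_succ_apply', hx]
  set g : Function.End Y := fun y => ⟨f y.1, hmap y.1 y.2⟩ with hg
  have hgit : ∀ n : ℕ, ∀ y : Y, ((g ^ n) y).1 = f^[n] y.1 := by
    intro n
    induction n with
    | zero => intro y; rfl
    | succ n ih =>
      intro y
      rw [pow_succ]
      have h1 : (g ^ n * g) y = (g ^ n) (g y) := rfl
      rw [h1, ih, Function.iterate_succ_apply]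
  have hgq : g ^ q ^ 1 = 1 := by
    rw [pow_one]
    funext y
    apply Subtype.ext
    rw [hgit q y]
    exact y.2
  have h1 := Equiv.Perm.card_fixedPoints_modEq hgq
  have h2 : fixCount f q = Fintype.card Y := by
    unfold fixCount
    rw [← Nat.card_coe_set_eq, Nat.card_eq_fintype_card]
  have h3 : fixCount f 1 = Fintype.card (Function.fixedPoints g) := by
    unfold fixCount
    rw [← Nat.card_coe_set_eq, ← Nat.card_eq_fintype_card]
    refine Nat.card_congr ⟨fun x => ⟨⟨x.1, ?_⟩, ?_⟩, fun y => ⟨y.1.1, ?_⟩, ?_, ?_⟩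
    · have hx : f x.1 = x.1 := x.2
      exact Function.iterate_fixed hx q
    · apply Subtype.ext
      exact x.2
    · have hy : g y.1 = y.1 := y.2
      have := congrArg Subtype.val hy
      exact this
    · intro x; rfl
    · intro y; rfl
  rw [h2, h3]
  exact h1

/-- Fermat type congruence for determinants -/
theorem det_cong {d : ℕ} (A : Matrix (Fin d) (Fin d) ℤ) {q : ℕ} (hq : q.Prime) :
    (((A ^ q - 1).det : ℤ) : ZMod q) = (((A - 1).det : ℤ) : ZMod q) := by
  have : Fact q.Prime := ⟨hq⟩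
  rcases Nat.eq_zero_or_pos d with h0 | h0
  · subst h0
    rw [Matrix.det_isEmpty, Matrix.det_isEmpty]
  · have : Nonempty (Fin d) := ⟨⟨0, h0⟩⟩
    set φ := (Int.castRingHom (ZMod q)).mapMatrix (m := Fin d) with hφ
    have h1 : ∀ B : Matrix (Fin d) (Fin d) ℤ, ((B.det : ℤ) : ZMod q) = (φ B).det := fun B => by
      rw [hφ, ← RingHom.map_det]; rfl
    rw [h1, h1, map_sub, map_sub, map_pow, map_one]
    have h2 : φ A ^ q - 1 = (φ A - 1) ^ q := by
      have h3 := sub_pow_char_of_commute (p := q) (Commute.one_right (φ A))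
      rw [h3, one_pow]
    rw [h2, Matrix.det_pow, ZMod.pow_card]

end Pool.Agent.R310.FAD
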