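import Pool.Agent.R310.FAD.Ind

/-! Almost periodic sequences governed by gcd's: uniqueness and periodicity from Abel means. -/

set_option autoImplicit false

open Filter Topology Finset

namespace Pool.Agent.R310.FAD

lemma Ab.pow_one {z : ℂ} (h : z = 1) : Ab (fun n => z ^ n) 1 := by
  subst h
  have : (fun n : ℕ => (1 : ℂ) ^ n) = fun _ => 1 := by funext n; rw [one_pow]
  rw [this]; exact Ab.one

/-- `a` is a uniform limit of gcd sequences with periods `M ^ V` -/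
def Appr (a : ℕ → ℂ) (M : ℕ) : Prop :=
  ∀ ε : ℝ, 0 < ε → ∃ V, ∀ W, V ≤ W → ∀ n, 1 ≤ n → ‖a n - a (Nat.gcd n (M ^ W))‖ ≤ ε

lemma Bdd.gcd (a : ℕ → ℂ) {K : ℕ} (hK : 1 ≤ K) : Bdd fun n => a (Nat.gcd n K) := by
  refine ⟨∑ d ∈ K.divisors, ‖a d‖, fun n => ?_⟩
  exact single_le_sum (f := fun d => ‖a d‖) (fun _ _ => norm_nonneg _)
    (Nat.mem_divisors.2 ⟨Nat.gcd_dvd_right n K, by omega⟩)

lemma Appr.bdd {a : ℕ → ℂ} {M : ℕ} (hM : 1 ≤ M) (h : Appr a M) : Bdd a := by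
  obtain ⟨V, hV⟩ := h 1 one_pos
  obtain ⟨C, hC⟩ := Bdd.gcd a (Nat.one_le_pow V M hM)
  refine ⟨max (C + 1) ‖a 0‖, fun n => ?_⟩
  rcases Nat.eq_zero_or_pos n with rfl | hn
  · exact le_max_right _ _
  · refine le_trans ?_ (le_max_left _ _)
    have h1 := hV V le_rfl n hn
    calc ‖a n‖ = ‖a (Nat.gcd n (M ^ V)) + (a n - a (Nat.gcd n (M ^ V)))‖ := by ring_nf
      _ ≤ ‖a (Nat.gcd n (M ^ V))‖ + ‖a n - a (Nat.gcd n (M ^ V))‖ := norm_add_le _ _
      _ ≤ C + 1 := add_le_add (hC n) h1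

lemma Appr.mean_exists {a : ℕ → ℂ} {M : ℕ} (hM : 1 ≤ M) (h : Appr a M) {y : ℂ} (hy : ‖y‖ ≤ 1) :
    ∃ L, Ab (fun n => a n * y ^ n) L := by
  obtain ⟨κ, hκ⟩ := Ab.gcd a
  refine Ab.exists_of_approx' ((h.bdd hM).mul (Bdd.pow hy)) fun ε hε => ?_
  obtain ⟨V, hV⟩ := h ε hε
  refine ⟨fun n => a (Nat.gcd n (M ^ V)) * y ^ n, _,
    (Bdd.gcd a (Nat.one_le_pow V M hM)).mul (Bdd.pow hy), fun n hn => ?_,
    hκ (M ^ V) (Nat.one_le_pow V M hM) y hy⟩
  rw [← sub_mul, norm_mul, norm_pow]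
  calc ‖a n - a (Nat.gcd n (M ^ V))‖ * ‖y‖ ^ n ≤ ‖a n - a (Nat.gcd n (M ^ V))‖ * 1 := by
        gcongr
        exact pow_le_one₀ (norm_nonneg _) hy
    _ ≤ ε := by rw [mul_one]; exact hV V le_rfl n hn

lemma Appr.mean_zero {a : ℕ → ℂ} {M : ℕ} (hM : 1 ≤ M) (h : Appr a M) {y : ℂ} (hy : ‖y‖ ≤ 1)
    (h1 : ∀ V, y ^ (M ^ V) ≠ 1) : Ab (fun n => a n * y ^ n) 0 := by
  obtain ⟨κ, hκ⟩ := Ab.gcd a
  refine Ab.of_approx ((h.bdd hM).mul (Bdd.pow hy)) fun ε hε => ?_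
  obtain ⟨V, hV⟩ := h ε hε
  have h2 := hκ (M ^ V) (Nat.one_le_pow V M hM) y hy
  rw [sum_eq_zero] at h2
  · refine ⟨fun n => a (Nat.gcd n (M ^ V)) * y ^ n,
      (Bdd.gcd a (Nat.one_le_pow V M hM)).mul (Bdd.pow hy), fun n hn => ?_, h2⟩
    rw [← sub_mul, norm_mul, norm_pow]
    calc ‖a n - a (Nat.gcd n (M ^ V))‖ * ‖y‖ ^ n ≤ ‖a n - a (Nat.gcd n (M ^ V))‖ * 1 := by
          gcongr
          exact pow_le_one₀ (norm_nonneg _) hy
      _ ≤ ε := by rw [mul_one]; exact hV V le_rfl n hn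
  · intro d hd
    rw [if_neg]
    intro h3
    obtain ⟨e, he⟩ := (Nat.mem_divisors.1 hd).1
    apply h1 V
    rw [he, pow_mul, h3, one_pow]

/-- unit invariance of the spectrum -/
lemma Appr.mean_unit {a : ℕ → ℂ} {M : ℕ} (hM : 1 ≤ M) (h : Appr a M) {y : ℂ} (hy : ‖y‖ = 1)
    {V : ℕ} (h1 : y ^ (M ^ V) = 1) (k : ℕ) {L : ℂ} (hL : Ab (fun n => a n * y ^ n) L) :
    Ab (fun n => a n * (y ^ (1 + k * M)) ^ n) L := by
  obtain ⟨κ, hκ⟩ := Ab.gcd a
  have hy' : ‖y ^ (1 + k * M)‖ ≤ 1 := by rw [norm_pow, hy, one_pow]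
  have hb1 : Bdd (fun n => a n * y ^ n) := (h.bdd hM).mul (Bdd.pow hy.le)
  have hb2 : Bdd (fun n => a n * (y ^ (1 + k * M)) ^ n) := (h.bdd hM).mul (Bdd.pow hy')
  have h2 : Ab (fun n => a n * (y ^ (1 + k * M)) ^ n - a n * y ^ n) 0 := by
    refine Ab.of_approx (hb2.sub hb1) fun ε hε => ?_
    obtain ⟨W, hW⟩ := h (ε / 2) (by positivity)
    have h3 := (hκ (M ^ W) (Nat.one_le_pow W M hM) _ hy').sub
      ((Bdd.gcd a (Nat.one_le_pow W M hM)).mul (Bdd.pow hy'))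
      ((Bdd.gcd a (Nat.one_le_pow W M hM)).mul (Bdd.pow hy.le))
      (hκ (M ^ W) (Nat.one_le_pow W M hM) y hy.le)
    have h4 : (∑ d ∈ (M ^ W).divisors, if (y ^ (1 + k * M)) ^ d = 1 then κ d / d else 0) =
        ∑ d ∈ (M ^ W).divisors, if y ^ d = 1 then κ d / d else 0 := by
      refine sum_congr rfl fun d _ => ?_
      have h5 : (y ^ (1 + k * M)) ^ d = 1 ↔ y ^ d = 1 := by
        constructor
        · intro h6
          -- orderOf y divides (1+kM) d and M^V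
          have h7 : orderOf y ∣ (1 + k * M) * d := by
            rw [orderOf_dvd_iff_pow_eq_one, pow_mul]; exact h6
          have h8 : orderOf y ∣ M ^ V := orderOf_dvd_of_pow_eq_one h1
          have h9 : Nat.Coprime (orderOf y) (1 + k * M) := by
            refine Nat.Coprime.coprime_dvd_left h8 ?_
            refine Nat.Coprime.pow_left V ?_
            rw [Nat.coprime_add_mul_right_right]
            exact Nat.coprime_one_right M
          exact orderOf_dvd_iff_pow_eq_one.1 (h9.dvd_of_dvd_mul_left h7)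
        · intro h6
          rw [← pow_mul, mul_comm, pow_mul, h6, one_pow]
      simp only [h5]
    rw [h4, sub_self] at h3
    refine ⟨_, ((Bdd.gcd a (Nat.one_le_pow W M hM)).mul (Bdd.pow hy')).sub
      ((Bdd.gcd a (Nat.one_le_pow W M hM)).mul (Bdd.pow hy.le)), fun n hn => ?_, h3⟩
    have h6 := hW W le_rfl n hn
    calc ‖a n * (y ^ (1 + k * M)) ^ n - a n * y ^ n -
          (a (Nat.gcd n (M ^ W)) * (y ^ (1 + k * M)) ^ n - a (Nat.gcd n (M ^ W)) * y ^ n)‖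
        = ‖(a n - a (Nat.gcd n (M ^ W))) * (y ^ (1 + k * M)) ^ n +
          (-((a n - a (Nat.gcd n (M ^ W))) * y ^ n))‖ := by ring_nf
      _ ≤ ‖(a n - a (Nat.gcd n (M ^ W))) * (y ^ (1 + k * M)) ^ n‖ +
          ‖-((a n - a (Nat.gcd n (M ^ W))) * y ^ n)‖ := norm_add_le _ _
      _ ≤ ε / 2 + ε / 2 := by
          rw [norm_neg, norm_mul, norm_mul, norm_pow, norm_pow, norm_pow, hy]
          simp only [one_pow, mul_one]
          exact add_le_add h6 h6
      _ = ε := by ring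
  have h3 := h2.add (hb2.sub hb1) hb1 hL
  rw [zero_add] at h3
  have h4 : (fun n => a n * (y ^ (1 + k * M)) ^ n - a n * y ^ n + a n * y ^ n) =
      fun n => a n * (y ^ (1 + k * M)) ^ n := by
    funext n; ring
  rwa [h4] at h3

/-- the standard primitive root -/
noncomputable def zt (K : ℕ) : ℂ := Complex.exp (2 * Real.pi * Complex.I / K)

lemma zt_prim {K : ℕ} (hK : 1 ≤ K) : IsPrimitiveRoot (zt K) K :=
  Complex.isPrimitiveRoot_exp K (by omega)

lemma zt_norm {K : ℕ} (hK : 1 ≤ K) : ‖zt K‖ = 1 :=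
  Complex.norm_eq_one_of_pow_eq_one (zt_prim hK).pow_eq_one (by omega)

lemma sum_zt {K : ℕ} (hK : 1 ≤ K) (n : ℕ) :
    (∑ k ∈ range K, (zt K ^ k) ^ n) = if K ∣ n then (K : ℂ) else 0 := by
  have h1 : ∀ k, (zt K ^ k) ^ n = (zt K ^ n) ^ k := fun k => by rw [← pow_mul, ← pow_mul, mul_comm]
  simp only [h1]
  split_ifs with h
  · have h2 : zt K ^ n = 1 := (zt_prim hK).pow_eq_one_iff_dvd n |>.2 h
    simp [h2]
  · have h2 : zt K ^ n ≠ 1 := fun h3 => h ((zt_prim hK).pow_eq_one_iff_dvd n |>.1 h3)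
    have h3 := geom_sum_mul (zt K ^ n) K
    have h4 : (zt K ^ n) ^ K = 1 := by
      rw [← pow_mul, mul_comm, pow_mul, (zt_prim hK).pow_eq_one, one_pow]
    rw [h4, sub_self] at h3
    rcases mul_eq_zero.1 h3 with h5 | h5
    · exact h5
    · exact absurd (sub_eq_zero.1 h5) h2

/-- `b` is a uniform limit of `M ^ V`-periodic sequences -/
def LP (b : ℕ → ℂ) (M : ℕ) : Prop :=
  ∀ ε : ℝ, 0 < ε → ∃ V, ∀ W, V ≤ W → ∀ m n, 1 ≤ m → 1 ≤ n → m ≡ n [MOD M ^ W] → ‖b m - b n‖ ≤ ε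

lemma Appr.lp {a : ℕ → ℂ} {M : ℕ} (h : Appr a M) : LP a M := by
  intro ε hε
  obtain ⟨V, hV⟩ := h (ε / 2) (by positivity)
  refine ⟨V, fun W hW m n hm hn hmn => ?_⟩
  have h1 := hV W hW m hm
  have h2 := hV W hW n hn
  have h3 : Nat.gcd m (M ^ W) = Nat.gcd n (M ^ W) := Nat.ModEq.gcd_eq hmn
  rw [h3] at h1
  calc ‖a m - a n‖ = ‖(a m - a (Nat.gcd n (M ^ W))) + (-(a n - a (Nat.gcd n (M ^ W))))‖ := by ring_nf
    _ ≤ ‖a m - a (Nat.gcd n (M ^ W))‖ + ‖-(a n - a (Nat.gcd n (M ^ W)))‖ := norm_add_le _ _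
    _ ≤ ε / 2 + ε / 2 := by rw [norm_neg]; exact add_le_add h1 h2
    _ = ε := by ring

/-- uniqueness -/
lemma LP.eq_zero {b : ℕ → ℂ} {M : ℕ} (hM : 1 ≤ M) (h : LP b M) (hb : Bdd b)
    (h0 : ∀ V : ℕ, ∀ y : ℂ, y ^ (M ^ V) = 1 → Ab (fun n => b n * y ^ n) 0) :
    ∀ x, 1 ≤ x → b x = 0 := by
  intro x hx
  by_contra hne
  have hpos : 0 < ‖b x‖ := norm_pos_iff.2 hne
  obtain ⟨V, hV⟩ := h (‖b x‖ / 2) (by positivity)
  set K := M ^ V with hK
  have hK1 : 1 ≤ K := Nat.one_le_pow V M hM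
  -- the indicator of the class of x, times K
  set I : ℕ → ℂ := fun n => if K ∣ (n + x * (K - 1)) then (K : ℂ) else 0 with hI
  have hIe : ∀ n, I n = ∑ k ∈ range K, (zt K ^ k) ^ (x * (K - 1)) * (zt K ^ k) ^ n := by
    intro n
    rw [hI]; dsimp only
    rw [← sum_zt hK1]
    exact sum_congr rfl fun k _ => by rw [pow_add, mul_comm]
  have hnk : ∀ k, ‖zt K ^ k‖ ≤ 1 := fun k => by rw [norm_pow, zt_norm hK1, one_pow]
  have hIb : Bdd I := by
    refine ⟨K, fun n => ?_⟩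
    rw [hI]; dsimp only
    split_ifs
    · simp
    · simp
  have h1 : Ab (fun n => b n * I n) 0 := by
    have h2 : (fun n => b n * I n) =
        fun n => ∑ k ∈ range K, (zt K ^ k) ^ (x * (K - 1)) * (b n * (zt K ^ k) ^ n) := by
      funext n
      rw [hIe, mul_sum]
      exact sum_congr rfl fun k _ => by ring
    rw [h2]
    have h3 : (0 : ℂ) = ∑ k ∈ range K, (zt K ^ k) ^ (x * (K - 1)) * 0 := by simp
    rw [h3]
    refine Ab.sum _ (fun k _ => (hb.mul (Bdd.pow (hnk k))).smul _) fun k _ => Ab.smul _ ?_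
    refine h0 V _ ?_
    rw [← pow_mul, mul_comm, pow_mul, ← hK, (zt_prim hK1).pow_eq_one, one_pow]
  have h2 : Ab I 1 := by
    have h3 : I = fun n => ∑ k ∈ range K, (zt K ^ k) ^ (x * (K - 1)) * (zt K ^ k) ^ n := funext hIe
    have h4 : (1 : ℂ) = ∑ k ∈ range K, (zt K ^ k) ^ (x * (K - 1)) * (if k = 0 then 1 else 0) := by
      rw [sum_eq_single 0]
      · simp
      · intro k _ hk; simp [hk]
      · intro h5; exact absurd (mem_range.2 (by omega)) h5
    rw [h3, h4]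
    refine Ab.sum _ (fun k _ => (Bdd.pow (hnk k)).smul _) fun k hk => Ab.smul _ ?_
    split_ifs with h5
    · subst h5; exact Ab.pow_one (pow_zero _)
    · refine Ab.pow_ne (hnk k) fun h6 => h5 ?_
      have h7 := (zt_prim hK1).pow_eq_one_iff_dvd k |>.1 h6
      exact Nat.eq_zero_of_dvd_of_lt h7 (mem_range.1 hk)
  -- compare
  have h3 : ∀ n, 1 ≤ n → ‖b n * I n - b x * I n‖ ≤ ‖b x‖ / 2 * ‖I n‖ := by
    intro n hn
    rw [← sub_mul, norm_mul]
    by_cases h5 : K ∣ (n + x * (K - 1))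
    · refine mul_le_mul_of_nonneg_right ?_ (norm_nonneg _)
      refine hV V le_rfl n x hn hx ?_
      have h6 : n + x * (K - 1) ≡ 0 [MOD K] := (Nat.modEq_zero_iff_dvd).2 h5
      have h7 : x + x * (K - 1) ≡ 0 [MOD K] := by
        rw [Nat.modEq_zero_iff_dvd]
        refine ⟨x, ?_⟩
        have : K = (K - 1) + 1 := by omega
        calc x + x * (K - 1) = x * ((K - 1) + 1) := by ring
          _ = x * K := by rw [← this]
          _ = K * x := mul_comm _ _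
      exact Nat.ModEq.add_right_cancel' _ (h6.trans h7.symm)
    · have : I n = 0 := by rw [hI]; dsimp only; rw [if_neg h5]
      rw [this]; simp
  set u : ℕ → ℝ := fun n => if n = 0 then ‖b 0 * I 0 - b x * I 0‖ else ‖b x‖ / 2 * ‖I n‖ with hu
  have hIn : ∀ n, ((‖I n‖ : ℝ) : ℂ) = I n := by
    intro n
    rw [hI]; dsimp only
    split_ifs <;> simp
  have hub : Bdd (fun n => ((‖b x‖ / 2 * ‖I n‖ : ℝ) : ℂ)) := by
    obtain ⟨C, hC⟩ := hIb
    refine ⟨‖b x‖ / 2 * C, fun n => ?_⟩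
    rw [Complex.norm_real, Real.norm_of_nonneg (by positivity)]
    gcongr
    exact hC n
  have hu1 : Ab (fun n => ((‖b x‖ / 2 * ‖I n‖ : ℝ) : ℂ)) ((‖b x‖ / 2 : ℝ) : ℂ) := by
    have h4 := h2.smul ((‖b x‖ / 2 : ℝ) : ℂ)
    rw [mul_one] at h4
    have h5 : (fun n => ((‖b x‖ / 2 * ‖I n‖ : ℝ) : ℂ)) = fun n => ((‖b x‖ / 2 : ℝ) : ℂ) * I n := by
      funext n; rw [Complex.ofReal_mul, hIn]
    rw [h5]; exact h4
  have hu2 : Ab (fun n => (u n : ℂ)) ((‖b x‖ / 2 : ℝ) : ℂ) := by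
    refine hu1.congr' hub 1 fun n hn => ?_
    rw [hu]; dsimp only
    rw [if_neg (by omega)]
  have hu2b : Bdd (fun n => (u n : ℂ)) := by
    obtain ⟨C, hC⟩ := hub
    refine ⟨max C ‖b 0 * I 0 - b x * I 0‖, fun n => ?_⟩
    rw [hu]; dsimp only
    split_ifs with h5
    · rw [Complex.norm_real, norm_norm]; exact le_max_right _ _
    · exact (hC n).trans (le_max_left _ _)
  have h4 : ∀ n, ‖b n * I n - b x * I n‖ ≤ u n := by
    intro n
    rw [hu]; dsimp only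
    split_ifs with h5
    · rw [h5]
    · exact h3 n (by omega)
  have h5 : Ab (fun n => b n * I n - b x * I n) (0 - b x * 1) :=
    h1.sub (hb.mul hIb) (hIb.smul _) (h2.smul _)
  have h6 : ‖(0 : ℂ) - b x * 1‖ ≤ ‖((‖b x‖ / 2 : ℝ) : ℂ)‖ := by
    refine le_of_tendsto_of_tendsto h5.norm hu2.norm ?_
    filter_upwards [ev_unit] with r hr
    exact ab_le h4 hu2b hr.1 hr.2
  rw [zero_sub, norm_neg, mul_one, Complex.norm_real, Real.norm_of_nonneg (by positivity)] at h6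
  linarith

/-- a sequence whose spectrum is contained in `M ^ V₀`-th roots of unity is periodic -/
lemma Appr.periodic {a : ℕ → ℂ} {M : ℕ} (hM : 1 ≤ M) (h : Appr a M) (V₀ : ℕ)
    (h0 : ∀ V : ℕ, ∀ y : ℂ, y ^ (M ^ V) = 1 → y ^ (M ^ V₀) ≠ 1 → Ab (fun n => a n * y ^ n) 0) :
    ∀ m n, 1 ≤ m → 1 ≤ n → m ≡ n [MOD M ^ V₀] → a m = a n := by
  classical
  set K := M ^ V₀ with hK
  have hK1 : 1 ≤ K := Nat.one_le_pow V₀ M hM
  have hnk : ∀ k, ‖zt K ^ k‖ ≤ 1 := fun k => by rw [norm_pow, zt_norm hK1, one_pow]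
  choose A hA using fun k : ℕ => h.mean_exists hM (hnk k)
  set p : ℕ → ℂ := fun n => ∑ k ∈ range K, A k * (zt K ^ k) ^ ((K - 1) * n) with hp
  have hinv : ∀ k n, (zt K ^ k) ^ ((K - 1) * n) = ((zt K ^ k)⁻¹) ^ n := by
    intro k n
    rw [pow_mul]
    congr 1
    have h1 : (zt K ^ k) ^ K = 1 := by
      rw [← pow_mul, mul_comm, pow_mul, (zt_prim hK1).pow_eq_one, one_pow]
    have h2 : (zt K ^ k) ^ (K - 1) * (zt K ^ k) = 1 := by
      rw [← pow_succ]
      have : K - 1 + 1 = K := by omega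
      rw [this, h1]
    exact eq_inv_of_mul_eq_one_left h2
  have hpb : Bdd p := by
    refine Bdd.sum _ fun k _ => Bdd.smul _ ⟨1, fun n => ?_⟩
    rw [norm_pow]; exact pow_le_one₀ (norm_nonneg _) (hnk k)
  have hpm : ∀ m n, m ≡ n [MOD K] → p m = p n := by
    intro m n hmn
    rw [hp]; dsimp only
    refine sum_congr rfl fun k _ => ?_
    congr 1
    have h1 : (zt K ^ k) ^ K = 1 := by
      rw [← pow_mul, mul_comm, pow_mul, (zt_prim hK1).pow_eq_one, one_pow]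
    have h2 : (K - 1) * m ≡ (K - 1) * n [MOD K] := hmn.mul_left _
    rw [pow_eq_pow_mod ((K - 1) * m) h1, pow_eq_pow_mod ((K - 1) * n) h1, h2]
  have hb : Bdd (fun n => a n - p n) := (h.bdd hM).sub hpb
  have hlp : LP (fun n => a n - p n) M := by
    intro ε hε
    obtain ⟨V, hV⟩ := h.lp ε hε
    refine ⟨max V V₀, fun W hW m n hm hn hmn => ?_⟩
    have h1 := hV W (le_trans (le_max_left _ _) hW) m n hm hn hmn
    have h2 : p m = p n := by
      refine hpm m n (hmn.of_dvd ?_)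
      exact pow_dvd_pow M (le_trans (le_max_right _ _) hW)
    dsimp only
    rw [h2, sub_sub_sub_cancel_right]
    exact h1
  have hz := hlp.eq_zero hM hb (fun V y hy => by
    have hyn : ‖y‖ = 1 := Complex.norm_eq_one_of_pow_eq_one hy (by
      have := Nat.one_le_pow V M hM; omega)
    have h1 : (fun n => (a n - p n) * y ^ n) = fun n => a n * y ^ n -
        ∑ k ∈ range K, A k * (((zt K ^ k)⁻¹ * y) ^ n) := by
      funext n
      rw [sub_mul, hp]; dsimp only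
      rw [sum_mul]
      congr 1
      refine sum_congr rfl fun k _ => ?_
      rw [hinv, mul_pow]; ring
    have hnk' : ∀ k, ‖(zt K ^ k)⁻¹ * y‖ ≤ 1 := fun k => by
      rw [norm_mul, norm_inv, norm_pow, zt_norm hK1, hyn]; simp
    have h2 : Ab (fun n => ∑ k ∈ range K, A k * (((zt K ^ k)⁻¹ * y) ^ n))
        (∑ k ∈ range K, A k * (if y = zt K ^ k then 1 else 0)) := by
      refine Ab.sum _ (fun k _ => (Bdd.pow (hnk' k)).smul _) fun k _ => Ab.smul _ ?_
      have hne : zt K ^ k ≠ 0 := pow_ne_zero _ ((zt_prim hK1).ne_zero (by omega))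
      split_ifs with h5
      · exact Ab.pow_one (by rw [h5, inv_mul_cancel₀ hne])
      · refine Ab.pow_ne (hnk' k) fun h6 => h5 ?_
        field_simp at h6
        exact h6
    have hab : Bdd (fun n => a n * y ^ n) := (h.bdd hM).mul (Bdd.pow hyn.le)
    have hsb : Bdd (fun n => ∑ k ∈ range K, A k * (((zt K ^ k)⁻¹ * y) ^ n)) :=
      Bdd.sum _ fun k _ => (Bdd.pow (hnk' k)).smul _
    rw [h1]
    by_cases hyK : y ^ K = 1
    · have : NeZero K := ⟨by omega⟩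
      obtain ⟨i, hi, hiy⟩ := (zt_prim hK1).eq_pow_of_pow_eq_one hyK
      have h3 : (∑ k ∈ range K, A k * (if y = zt K ^ k then (1 : ℂ) else 0)) = A i := by
        rw [sum_eq_single i]
        · rw [if_pos hiy.symm, mul_one]
        · intro k hk hki
          rw [if_neg, mul_zero]
          intro h4
          rw [← hiy] at h4
          exact hki ((zt_prim hK1).pow_inj hi (mem_range.1 hk) h4).symm
        · intro h4; exact absurd (mem_range.2 hi) h4
      rw [h3] at h2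
      have h4 := (hA i)
      rw [hiy] at h4
      have h5 := h4.sub hab hsb h2
      rwa [sub_self] at h5
    · have h3 : (∑ k ∈ range K, A k * (if y = zt K ^ k then (1 : ℂ) else 0)) = 0 := by
        refine sum_eq_zero fun k _ => ?_
        rw [if_neg, mul_zero]
        intro h4
        apply hyK
        rw [h4, ← pow_mul, mul_comm, pow_mul, (zt_prim hK1).pow_eq_one, one_pow]
      rw [h3] at h2
      have h5 := (h0 V y hy hyK).sub hab hsb h2
      rwa [sub_self] at h5)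
  intro m n hm hn hmn
  have h1 := hz m hm
  have h2 := hz n hn
  rw [sub_eq_zero] at h1 h2
  rw [h1, h2, hpm m n hmn]

end Pool.Agent.R310.FAD
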