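import Mathlib

/-! Among the sub-products of finitely many complex numbers, none a root of unity, one of maximal
modulus differs from all other sub-products of maximal modulus by a factor of infinite order. -/

set_option autoImplicit false

open Finset

namespace Pool.Agent.R310.FAD

/-- an additive functional on angles killing rational angles and no other given one -/
lemma exists_functional {ι : Type*} [Finite ι] (θ : ι → ℝ) (hθ : ∀ i, ∀ q : ℚ, θ i ≠ q) :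
    ∃ L : ℝ →ₗ[ℚ] ℚ, (∀ q : ℚ, L (q : ℝ) = 0) ∧ ∀ i, L (θ i) ≠ 0 := by
  set W : Submodule ℚ ℝ := Submodule.span ℚ {(1 : ℝ)} with hW
  have hmem : ∀ q : ℚ, (q : ℝ) ∈ W := fun q => by
    rw [hW, Submodule.mem_span_singleton]
    exact ⟨q, by rw [Rat.smul_def, mul_one]⟩
  have h1 : ∀ i, W.mkQ (θ i) ≠ 0 := by
    intro i h
    rw [Submodule.mkQ_apply, Submodule.Quotient.mk_eq_zero, hW, Submodule.mem_span_singleton] at h
    obtain ⟨q, hq⟩ := h
    rw [Rat.smul_def, mul_one] at hq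
    exact hθ i q hq.symm
  obtain ⟨f, hf⟩ := Module.exists_dual_forall_apply_ne_zero (K := ℚ) (fun i => W.mkQ (θ i)) h1
  refine ⟨f.comp W.mkQ, fun q => ?_, fun i => hf i⟩
  rw [LinearMap.comp_apply, Submodule.mkQ_apply, (Submodule.Quotient.mk_eq_zero W).2 (hmem q), map_zero]

/-- angle in turns -/
noncomputable def ang (z : ℂ) : ℝ := Complex.arg z / (2 * Real.pi)

lemma ang_spec (z : ℂ) : z = ‖z‖ * Complex.exp (2 * Real.pi * ang z * Complex.I) := by
  have h := Complex.norm_mul_exp_arg_mul_I z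
  have h1 : (2 * Real.pi * ang z * Complex.I : ℂ) = Complex.arg z * Complex.I := by
    unfold ang
    have : (Real.pi : ℂ) ≠ 0 := by exact_mod_cast Real.pi_ne_zero
    push_cast; field_simp
  rw [h1, h]

lemma prod_ang {ι : Type*} (T : Finset ι) (ξ : ι → ℂ) :
    ∏ j ∈ T, ξ j = ‖∏ j ∈ T, ξ j‖ * Complex.exp (2 * Real.pi * (∑ j ∈ T, ang (ξ j) : ℝ) * Complex.I) := by
  rw [norm_prod, Complex.ofReal_prod, Complex.ofReal_sum, mul_sum, sum_mul, Complex.exp_sum,
    ← prod_mul_distrib]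
  exact prod_congr rfl fun j _ => ang_spec (ξ j)

/-- the largest possible modulus -/
noncomputable def Lam0 {ι : Type*} [Fintype ι] (ξ : ι → ℂ) : ℝ := ∏ j, max 1 ‖ξ j‖

lemma Lam0_ge {ι : Type*} [Fintype ι] (ξ : ι → ℂ) : 1 ≤ Lam0 ξ :=
  by
  unfold Lam0
  calc (1 : ℝ) = ∏ _j : ι, (1 : ℝ) := by simp
    _ ≤ ∏ j, max 1 ‖ξ j‖ := prod_le_prod (fun _ _ => zero_le_one) fun j _ => le_max_left _ _

lemma prod_ite_eq {ι : Type*} [Fintype ι] [DecidableEq ι] (ξ : ι → ℂ) (T : Finset ι) :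
    ‖∏ j ∈ T, ξ j‖ = ∏ j, if j ∈ T then ‖ξ j‖ else 1 := by
  rw [norm_prod, prod_ite_mem, univ_inter]

lemma norm_le_Lam0 {ι : Type*} [Fintype ι] [DecidableEq ι] (ξ : ι → ℂ) (T : Finset ι) :
    ‖∏ j ∈ T, ξ j‖ ≤ Lam0 ξ := by
  rw [prod_ite_eq]
  refine prod_le_prod (fun j _ => ?_) fun j _ => ?_
  · split_ifs
    · exact norm_nonneg _
    · exact zero_le_one
  · split_ifs
    · exact le_max_right _ _
    · exact le_max_left _ _

lemma of_norm_eq {ι : Type*} [Fintype ι] [DecidableEq ι] (ξ : ι → ℂ) (T : Finset ι)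
    (h : ‖∏ j ∈ T, ξ j‖ = Lam0 ξ) (j : ι) : (if j ∈ T then ‖ξ j‖ else 1) = max 1 ‖ξ j‖ := by
  by_contra hne
  have h0 : ∀ i, 0 ≤ (if i ∈ T then ‖ξ i‖ else 1) := fun i => by
    split_ifs
    · exact norm_nonneg _
    · exact zero_le_one
  have hle : ∀ i, (if i ∈ T then ‖ξ i‖ else 1) ≤ max 1 ‖ξ i‖ := fun i => by
    split_ifs
    · exact le_max_right _ _
    · exact le_max_left _ _
  have hlt : (if j ∈ T then ‖ξ j‖ else 1) < max 1 ‖ξ j‖ := lt_of_le_of_ne (hle j) hne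
  rw [prod_ite_eq] at h
  have hpos : ∀ i, 0 < (if i ∈ T then ‖ξ i‖ else 1) := by
    intro i
    refine lt_of_le_of_ne (h0 i) fun h1 => ?_
    have h2 : (∏ i, if i ∈ T then ‖ξ i‖ else 1) = 0 := prod_eq_zero (mem_univ i) h1.symm
    rw [h2] at h
    have := Lam0_ge ξ
    linarith
  have h3 : (∏ i, if i ∈ T then ‖ξ i‖ else 1) < ∏ i, max 1 ‖ξ i‖ :=
    prod_lt_prod (fun i _ => hpos i) (fun i _ => hle i) ⟨j, mem_univ j, hlt⟩
  exact absurd h h3.ne

theorem exists_dominant {ι : Type*} [Fintype ι] [DecidableEq ι] (ξ : ι → ℂ)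
    (hξ : ∀ j, ∀ m : ℕ, 1 ≤ m → ξ j ^ m ≠ 1) :
    ∃ T₀ : Finset ι, ‖∏ j ∈ T₀, ξ j‖ = Lam0 ξ ∧
      ∀ T : Finset ι, T ≠ T₀ → ‖∏ j ∈ T, ξ j‖ = Lam0 ξ → ∀ m : ℕ, 1 ≤ m →
        (∏ j ∈ T, ξ j) ^ m ≠ (∏ j ∈ T₀, ξ j) ^ m := by
  classical
  have hpi : (Real.pi : ℂ) ≠ 0 := by exact_mod_cast Real.pi_ne_zero
  -- angles of unimodular elements are irrational
  have hirr : ∀ j : {j : ι // ‖ξ j‖ = 1}, ∀ q : ℚ, ang (ξ j) ≠ q := by
    rintro ⟨j, hj⟩ q hq
    apply hξ j q.den q.den_pos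
    rw [ang_spec (ξ j), hj, hq, Complex.ofReal_one, one_mul, ← Complex.exp_nat_mul,
      Complex.exp_eq_one_iff]
    refine ⟨q.num, ?_⟩
    have h1 : (q.den : ℂ) * ((q : ℝ) : ℂ) = q.num := by
      have h2 : (q.den : ℚ) * q = q.num := by rw [mul_comm]; exact Rat.mul_den_eq_num q
      have h3 : ((q.den : ℚ) * q : ℂ) = ((q.num : ℚ) : ℂ) := by exact_mod_cast congrArg (fun x : ℚ => (x : ℂ)) h2
      push_cast at h3 ⊢
      exact h3
    calc (q.den : ℂ) * (2 * Real.pi * ((q : ℝ) : ℂ) * Complex.I)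
        = ((q.den : ℂ) * ((q : ℝ) : ℂ)) * (2 * Real.pi * Complex.I) := by ring
      _ = q.num * (2 * Real.pi * Complex.I) := by rw [h1]
  obtain ⟨L, hL0, hL⟩ := exists_functional (fun j : {j : ι // ‖ξ j‖ = 1} => ang (ξ j)) hirr
  set T₀ : Finset ι := univ.filter fun j => 1 < ‖ξ j‖ ∨ (‖ξ j‖ = 1 ∧ 0 < L (ang (ξ j))) with hT₀
  have hT₀n : ‖∏ j ∈ T₀, ξ j‖ = Lam0 ξ := by
    rw [prod_ite_eq]
    refine prod_congr rfl fun j _ => ?_
    rw [hT₀]
    simp only [mem_filter, mem_univ, true_and]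
    split_ifs with h
    · rcases h with h | h
      · rw [max_eq_right h.le]
      · rw [h.1, max_self]
    · push Not at h
      rw [max_eq_left h.1]
  refine ⟨T₀, hT₀n, fun T hT hTn m hm hmeq => ?_⟩
  -- the functional takes the same value on T and T₀
  have hΛpos : 0 < Lam0 ξ := lt_of_lt_of_le one_pos (Lam0_ge ξ)
  have h1 : L (∑ j ∈ T, ang (ξ j)) = L (∑ j ∈ T₀, ang (ξ j)) := by
    rw [prod_ang T, prod_ang T₀, hTn, hT₀n, mul_pow, mul_pow] at hmeq
    have h2 : ((Lam0 ξ : ℝ) : ℂ) ^ m ≠ 0 := pow_ne_zero _ (by exact_mod_cast hΛpos.ne')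
    have h3 := mul_left_cancel₀ h2 hmeq
    rw [← Complex.exp_nat_mul, ← Complex.exp_nat_mul, Complex.exp_eq_exp_iff_exists_int] at h3
    obtain ⟨n, hn⟩ := h3
    have h4 : ((m : ℝ) : ℂ) * ((∑ j ∈ T, ang (ξ j) : ℝ) : ℂ) =
        ((m : ℝ) : ℂ) * ((∑ j ∈ T₀, ang (ξ j) : ℝ) : ℂ) + ((n : ℝ) : ℂ) := by
      have h5 : (2 * Real.pi * Complex.I : ℂ) ≠ 0 := by
        exact mul_ne_zero (mul_ne_zero two_ne_zero hpi) Complex.I_ne_zero
      apply mul_right_cancel₀ h5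
      push_cast at hn ⊢
      linear_combination hn
    have h5 : (m : ℝ) * (∑ j ∈ T, ang (ξ j)) = (m : ℝ) * (∑ j ∈ T₀, ang (ξ j)) + n := by
      exact_mod_cast h4
    have hm0 : (m : ℝ) ≠ 0 := by exact_mod_cast (by omega : m ≠ 0)
    have h6 : (∑ j ∈ T, ang (ξ j)) = (∑ j ∈ T₀, ang (ξ j)) + (((n : ℚ) / (m : ℚ) : ℚ) : ℝ) := by
      push_cast
      field_simp
      linear_combination h5
    rw [h6, map_add, hL0, add_zero]
  -- but T₀ strictly maximizes it
  have h2 : L (∑ j ∈ T, ang (ξ j)) < L (∑ j ∈ T₀, ang (ξ j)) := by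
    rw [map_sum, map_sum]
    have h3 : ∀ S : Finset ι, ∑ j ∈ S, L (ang (ξ j)) = ∑ j, if j ∈ S then L (ang (ξ j)) else 0 := by
      intro S; rw [sum_ite_mem, univ_inter]
    rw [h3 T, h3 T₀]
    have hcmp : ∀ j, (j ∈ T ↔ j ∈ T₀) ∨ (if j ∈ T then L (ang (ξ j)) else 0) <
        (if j ∈ T₀ then L (ang (ξ j)) else 0) := by
      intro j
      have hj := of_norm_eq ξ T hTn j
      have hj0 : j ∈ T₀ ↔ 1 < ‖ξ j‖ ∨ (‖ξ j‖ = 1 ∧ 0 < L (ang (ξ j))) := by
        rw [hT₀]; simp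
      rcases lt_trichotomy ‖ξ j‖ 1 with h | h | h
      · left
        have h5 : j ∉ T := fun h6 => by
          rw [if_pos h6, max_eq_left h.le] at hj; exact h.ne hj
        have h6 : j ∉ T₀ := fun h7 => by
          rcases hj0.1 h7 with h8 | h8
          · linarith
          · linarith [h8.1]
        exact ⟨fun h7 => absurd h7 h5, fun h7 => absurd h7 h6⟩
      · have h5 := hL ⟨j, h⟩
        dsimp only at h5
        by_cases h6 : j ∈ T <;> by_cases h7 : j ∈ T₀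
        · left; exact ⟨fun _ => h7, fun _ => h6⟩
        · right
          rw [if_pos h6, if_neg h7]
          refine lt_of_le_of_ne ?_ h5
          by_contra h8
          exact h7 (hj0.2 (Or.inr ⟨h, not_le.1 h8⟩))
        · right
          rw [if_neg h6, if_pos h7]
          rcases hj0.1 h7 with h8 | h8
          · linarith
          · exact h8.2
        · left; exact ⟨fun h8 => absurd h8 h6, fun h8 => absurd h8 h7⟩
      · left
        have h5 : j ∈ T := by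
          by_contra h6
          rw [if_neg h6, max_eq_right h.le] at hj; exact h.ne hj
        exact ⟨fun _ => hj0.2 (Or.inl h), fun _ => h5⟩
    have hex : ∃ j, ¬ (j ∈ T ↔ j ∈ T₀) := by
      by_contra hcon
      push Not at hcon
      exact hT (Finset.ext fun j => hcon j)
    obtain ⟨j0, hj0⟩ := hex
    refine sum_lt_sum (fun j _ => ?_) ⟨j0, mem_univ j0, ?_⟩
    · rcases hcmp j with h | h
      · by_cases h6 : j ∈ T
        · rw [if_pos h6, if_pos (h.1 h6)]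
        · rw [if_neg h6, if_neg (fun h7 => h6 (h.2 h7))]
      · exact h.le
    · rcases hcmp j0 with h | h
      · exact absurd h hj0
      · exact h
  exact absurd h1 h2.ne

end Pool.Agent.R310.FAD
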