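import Pool.Agent.R310.FAD.Abel

/-! Abel means of divisibility indicators and of gcd sequences. -/

set_option autoImplicit false

open Filter Topology Finset

namespace Pool.Agent.R310.FAD

/-- domination -/
lemma ab_le {w : ℕ → ℂ} {u : ℕ → ℝ} (h : ∀ n, ‖w n‖ ≤ u n) (hu : Bdd fun n => (u n : ℂ)) {r : ℝ}
    (h0 : 0 ≤ r) (h1 : r < 1) : ‖ab w r‖ ≤ ‖ab (fun n => (u n : ℂ)) r‖ := by
  have hs := summ hu h0 h1
  have hs' : Summable (fun n => u n * r ^ n) := by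
    have h2 : (fun n : ℕ => (u n : ℂ) * (r : ℂ) ^ n) = fun n => ((u n * r ^ n : ℝ) : ℂ) := by
      funext n; push_cast; ring
    rw [h2] at hs
    exact Complex.summable_ofReal.1 hs
  have h2 : (∑' n : ℕ, (u n : ℂ) * (r : ℂ) ^ n) = ((∑' n : ℕ, u n * r ^ n : ℝ) : ℂ) := by
    rw [Complex.ofReal_tsum]
    exact tsum_congr fun n => by push_cast; ring
  have h3 : ‖∑' n : ℕ, w n * (r : ℂ) ^ n‖ ≤ ∑' n : ℕ, u n * r ^ n := by
    refine tsum_of_norm_bounded hs'.hasSum fun n => ?_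
    rw [norm_mul, norm_pow, Complex.norm_real, Real.norm_of_nonneg h0]
    exact mul_le_mul_of_nonneg_right (h n) (pow_nonneg h0 n)
  unfold ab
  rw [norm_mul, norm_mul, h2, Complex.norm_real]
  apply mul_le_mul_of_nonneg_left _ (norm_nonneg _)
  exact h3.trans (le_abs_self _)

lemma Ab.of_approx {w : ℕ → ℂ} (hw : Bdd w)
    (h : ∀ ε : ℝ, 0 < ε → ∃ v : ℕ → ℂ, Bdd v ∧ (∀ n, 1 ≤ n → ‖w n - v n‖ ≤ ε) ∧ Ab v 0) :
    Ab w 0 := by
  unfold Ab
  rw [Metric.tendsto_nhds]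
  intro ε hε
  obtain ⟨v, hv, hwv, hM⟩ := h (ε / 4) (by positivity)
  -- modify v at 0
  set v' : ℕ → ℂ := fun n => if n = 0 then w 0 else v n with hv'
  have hv'b : Bdd v' := by
    obtain ⟨C, hC⟩ := hv
    refine ⟨max C ‖w 0‖, fun n => ?_⟩
    rw [hv']; dsimp only
    split_ifs with h0
    · exact le_max_right _ _
    · exact (hC n).trans (le_max_left _ _)
  have hM' : Ab v' 0 := by
    refine hM.congr' hv 1 fun n hn => ?_
    rw [hv']; dsimp only
    rw [if_neg (by omega)]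
  have hwv' : ∀ n, ‖w n - v' n‖ ≤ ε / 4 := by
    intro n
    rw [hv']; dsimp only
    split_ifs with h0
    · rw [h0, sub_self, norm_zero]; positivity
    · exact hwv n (by omega)
  have h1 : ∀ᶠ r in 𝓝[<] (1 : ℝ), dist (ab v' r) 0 < ε / 4 :=
    (Metric.tendsto_nhds.1 hM') (ε / 4) (by positivity)
  filter_upwards [h1, ev_unit] with r hr1 hr2
  have h2 := ab_bound hwv' hr2.1 hr2.2
  rw [ab_sub hw hv'b hr2.1 hr2.2] at h2
  calc dist (ab w r) 0 ≤ dist (ab w r) (ab v' r) + dist (ab v' r) 0 := dist_triangle _ _ _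
    _ ≤ ε / 4 + ε / 4 := add_le_add (by rwa [dist_eq_norm]) hr1.le
    _ < ε := by linarith

lemma Ab.exists_of_approx' {w : ℕ → ℂ} (hw : Bdd w)
    (h : ∀ ε : ℝ, 0 < ε → ∃ v : ℕ → ℂ, ∃ M : ℂ, Bdd v ∧ (∀ n, 1 ≤ n → ‖w n - v n‖ ≤ ε) ∧ Ab v M) :
    ∃ L, Ab w L := by
  refine Ab.exists_of_approx hw fun ε hε => ?_
  obtain ⟨v, M, hv, hwv, hM⟩ := h ε hε
  refine ⟨fun n => if n = 0 then w 0 else v n, M, ?_, ?_, ?_⟩
  · obtain ⟨C, hC⟩ := hv
    refine ⟨max C ‖w 0‖, fun n => ?_⟩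
    dsimp only
    split_ifs with h0
    · exact le_max_right _ _
    · exact (hC n).trans (le_max_left _ _)
  · intro n
    dsimp only
    split_ifs with h0
    · rw [h0, sub_self, norm_zero]; exact hε.le
    · exact hwv n (by omega)
  · refine hM.congr' hv 1 fun n hn => ?_
    rw [if_neg (by omega)]

lemma ab_ind {d : ℕ} (hd : 1 ≤ d) {y : ℂ} (hy : ‖y‖ ≤ 1) {r : ℝ} (h0 : 0 ≤ r) (h1 : r < 1) :
    ab (fun n => if d ∣ n then y ^ n else 0) r = (1 - (r : ℂ)) * (1 - (y * r) ^ d)⁻¹ := by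
  unfold ab
  congr 1
  have h4 : ‖y * r‖ < 1 := by
    rw [norm_mul, Complex.norm_real, Real.norm_of_nonneg h0]
    calc ‖y‖ * r ≤ 1 * r := mul_le_mul_of_nonneg_right hy h0
      _ = r := one_mul r
      _ < 1 := h1
  have h5 : ‖(y * r) ^ d‖ < 1 := by
    rw [norm_pow]; exact pow_lt_one₀ (norm_nonneg _) h4 (by omega)
  rw [← tsum_geometric_of_norm_lt_one h5]
  have hinj : Function.Injective (fun m : ℕ => d * m) := fun a b hab => by
    have := Nat.eq_of_mul_eq_mul_left (by omega) hab; exact this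
  rw [← hinj.tsum_eq]
  · refine tsum_congr fun m => ?_
    simp only [dvd_mul_right, if_true]
    rw [← mul_pow, ← pow_mul]
  · intro n hn
    rw [Function.mem_support] at hn
    by_cases hdn : d ∣ n
    · obtain ⟨m, rfl⟩ := hdn; exact ⟨m, rfl⟩
    · simp only [if_neg hdn, zero_mul] at hn; exact absurd rfl hn

lemma Ab.ind {d : ℕ} (hd : 1 ≤ d) {y : ℂ} (hy : ‖y‖ ≤ 1) :
    Ab (fun n => if d ∣ n then y ^ n else 0) (if y ^ d = 1 then (1 / d : ℂ) else 0) := by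
  split_ifs with h
  · have h2 : Tendsto (fun r : ℝ => (∑ i ∈ range d, (r : ℂ) ^ i)⁻¹) (𝓝[<] (1 : ℝ)) (𝓝 (1 / d : ℂ)) := by
      refine Tendsto.mono_left ?_ nhdsWithin_le_nhds
      have hc : ContinuousAt (fun r : ℝ => (∑ i ∈ range d, (r : ℂ) ^ i)⁻¹) 1 := by
        refine ContinuousAt.inv₀ (by fun_prop) ?_
        simp only [Complex.ofReal_one, one_pow, sum_const, card_range, nsmul_eq_mul, mul_one]
        exact_mod_cast (by omega : d ≠ 0)
      have h3 := hc.tendsto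
      simp only [Complex.ofReal_one, one_pow, sum_const, card_range, nsmul_eq_mul, mul_one] at h3
      rw [one_div]; exact h3
    refine h2.congr' ?_
    filter_upwards [ev_unit] with r hr
    rw [ab_ind hd hy hr.1 hr.2, mul_pow, h, one_mul]
    have h6 : (1 : ℂ) - r ≠ 0 := by
      rw [sub_ne_zero]; intro h
      have : (1 : ℝ) = r := by exact_mod_cast h
      linarith [hr.2]
    have h7 : (∑ i ∈ range d, (r : ℂ) ^ i) * (1 - r) = 1 - (r : ℂ) ^ d := by
      have := geom_sum_mul_neg (r : ℂ) d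
      exact this
    have h8 : (∑ i ∈ range d, (r : ℂ) ^ i) ≠ 0 := by
      intro h9
      rw [h9, zero_mul] at h7
      have h10 : (r : ℂ) ^ d = 1 := by linear_combination h7
      have h11 : r ^ d = 1 := by exact_mod_cast h10
      have h12 := pow_lt_one₀ hr.1 hr.2 (by omega : d ≠ 0)
      linarith
    rw [← h7, mul_inv]
    field_simp
  · have h2 : Tendsto (fun r : ℝ => (1 - (r : ℂ)) * (1 - (y * r) ^ d)⁻¹) (𝓝[<] (1 : ℝ))
        (𝓝 ((1 - ((1 : ℝ) : ℂ)) * (1 - (y * ((1 : ℝ) : ℂ)) ^ d)⁻¹)) := by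
      refine Tendsto.mono_left ?_ nhdsWithin_le_nhds
      have hc : ContinuousAt (fun r : ℝ => (1 - (r : ℂ)) * (1 - (y * r) ^ d)⁻¹) 1 := by
        refine ContinuousAt.mul (by fun_prop) (ContinuousAt.inv₀ (by fun_prop) ?_)
        rw [Complex.ofReal_one, mul_one, sub_ne_zero]
        exact fun h' => h h'.symm
      exact hc
    have h3 : ((1 : ℂ) - ((1 : ℝ) : ℂ)) * (1 - (y * ((1 : ℝ) : ℂ)) ^ d)⁻¹ = 0 := by simp
    rw [h3] at h2
    refine h2.congr' ?_
    filter_upwards [ev_unit] with r hr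
    exact (ab_ind hd hy hr.1 hr.2).symm

/-- expansion of gcd sequences in divisibility indicators -/
lemma gcd_expand {R : Type*} [Ring R] (v : ℕ → R) :
    ∃ κ : ℕ → R, ∀ K, 1 ≤ K → ∀ n, v (Nat.gcd n K) = ∑ d ∈ K.divisors, if d ∣ n then κ d else 0 := by
  classical
  refine ⟨fun n => ∑ x ∈ n.divisorsAntidiagonal, (ArithmeticFunction.moebius x.fst : R) * v x.snd,
    fun K hK n => ?_⟩
  have h := (ArithmeticFunction.sum_eq_iff_sum_mul_moebius_eq (R := R)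
    (f := fun n => ∑ x ∈ n.divisorsAntidiagonal, (ArithmeticFunction.moebius x.fst : R) * v x.snd)
    (g := v)).2 (fun n _ => rfl)
  rw [← h (Nat.gcd n K) (Nat.gcd_pos_of_pos_right n hK), ← sum_filter]
  apply sum_congr _ (fun _ _ => rfl)
  ext d
  simp only [Nat.mem_divisors, mem_filter, Nat.dvd_gcd_iff]
  constructor
  · rintro ⟨⟨h1, h2⟩, h3⟩; exact ⟨⟨h2, by omega⟩, h1⟩
  · rintro ⟨⟨h1, h2⟩, h3⟩; exact ⟨⟨h3, h1⟩, Nat.gcd_ne_zero_right (by omega)⟩

/-- Abel mean of a gcd sequence times a character -/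
lemma Ab.gcd (v : ℕ → ℂ) : ∃ κ : ℕ → ℂ, ∀ K, 1 ≤ K → ∀ y : ℂ, ‖y‖ ≤ 1 →
    Ab (fun n => v (Nat.gcd n K) * y ^ n) (∑ d ∈ K.divisors, if y ^ d = 1 then κ d / d else 0) := by
  obtain ⟨κ, hκ⟩ := gcd_expand v
  refine ⟨κ, fun K hK y hy => ?_⟩
  have h1 : (fun n => v (Nat.gcd n K) * y ^ n) =
      fun n => ∑ d ∈ K.divisors, κ d * (if d ∣ n then y ^ n else 0) := by
    funext n
    rw [hκ K hK n, sum_mul]
    refine sum_congr rfl fun d _ => ?_
    split_ifs <;> simp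
  rw [h1]
  have h2 : (∑ d ∈ K.divisors, if y ^ d = 1 then κ d / d else 0) =
      ∑ d ∈ K.divisors, κ d * (if y ^ d = 1 then (1 / d : ℂ) else 0) := by
    refine sum_congr rfl fun d _ => ?_
    split_ifs <;> ring
  rw [h2]
  refine Ab.sum _ (fun d _ => ?_) fun d hd => ?_
  · refine Bdd.smul _ ⟨1, fun n => ?_⟩
    dsimp only
    split_ifs
    · rw [norm_pow]; exact pow_le_one₀ (norm_nonneg _) hy
    · simp
  · exact Ab.smul _ (Ab.ind (Nat.pos_of_mem_divisors hd) hy)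

end Pool.Agent.R310.FAD
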