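import Pool.Agent.R310.FAD.Arc
import Pool.Agent.R310.FAD.Dom

/-! Passing from the coefficients to the limit periodic factor. -/

set_option autoImplicit false

open Filter Topology Finset

namespace Pool.Agent.R310.FAD

/-- the normalised coefficients -/
noncomputable def wq {ι : Type*} [Fintype ι] (ξ : ι → ℂ) (a : ℕ → ℂ) (n : ℕ) : ℂ :=
  a n * ((∏ j, (ξ j ^ n - 1)) / (Lam0 ξ : ℂ) ^ n)

lemma wq_expand {ι : Type*} [Fintype ι] [DecidableEq ι] (ξ : ι → ℂ) (a : ℕ → ℂ) (y : ℂ) (n : ℕ) :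
    wq ξ a n * y ^ n = ∑ T : Finset ι, (-1 : ℂ) ^ (univ \ T).card *
      (a n * ((∏ j ∈ T, ξ j) / (Lam0 ξ : ℂ) * y) ^ n) := by
  have h1 : (∏ j, (ξ j ^ n - 1)) = ∑ T : Finset ι, (-1 : ℂ) ^ (univ \ T).card * (∏ j ∈ T, ξ j) ^ n := by
    have h2 := Finset.prod_add (fun j => ξ j ^ n) (fun _ => (-1 : ℂ)) (univ : Finset ι)
    have h3 : (∏ j, (ξ j ^ n - 1)) = ∏ j, (ξ j ^ n + -1) := prod_congr rfl fun j _ => by ring
    rw [h3, h2, powerset_univ]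
    refine sum_congr rfl fun T _ => ?_
    rw [prod_const, prod_pow, mul_comm]
  unfold wq
  rw [h1, sum_div, mul_sum, sum_mul]
  refine sum_congr rfl fun T _ => ?_
  rw [mul_pow, div_pow]
  ring

lemma wq_bdd {ι : Type*} [Fintype ι] (ξ : ι → ℂ) {a : ℕ → ℂ} (ha : Bdd a) : Bdd (wq ξ a) := by
  classical
  have h1 : wq ξ a = fun n => ∑ T : Finset ι, (-1 : ℂ) ^ (univ \ T).card *
      (a n * ((∏ j ∈ T, ξ j) / (Lam0 ξ : ℂ) * 1) ^ n) := by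
    funext n
    rw [← wq_expand, one_pow, mul_one]
  rw [h1]
  refine Bdd.sum _ fun T _ => Bdd.smul _ (ha.mul (Bdd.pow ?_))
  have h2 := Lam0_ge ξ
  rw [mul_one, norm_div, Complex.norm_real, Real.norm_of_nonneg (by linarith), div_le_one (by linarith)]
  exact norm_le_Lam0 ξ T

theorem link {ι : Type*} [Fintype ι] (ξ : ι → ℂ) (hξ : ∀ j, ∀ m : ℕ, 1 ≤ m → ξ j ^ m ≠ 1)
    {a : ℕ → ℂ} {M : ℕ} (hM : 1 ≤ M) (h : Appr a M) :
    ∃ η : ℂ, ‖η‖ = 1 ∧ ∀ V : ℕ, ∀ y : ℂ, y ^ (M ^ V) = 1 →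
      Ab (fun n => wq ξ a n * (η⁻¹ * y) ^ n) 0 → Ab (fun n => a n * y ^ n) 0 := by
  classical
  obtain ⟨T₀, hT₀, hdom⟩ := exists_dominant ξ hξ
  have hΛ : 0 < Lam0 ξ := lt_of_lt_of_le one_pos (Lam0_ge ξ)
  have hΛc : (Lam0 ξ : ℂ) ≠ 0 := by exact_mod_cast hΛ.ne'
  set η : ℂ := (∏ j ∈ T₀, ξ j) / (Lam0 ξ : ℂ) with hη
  have hηn : ‖η‖ = 1 := by
    rw [hη, norm_div, hT₀, Complex.norm_real, Real.norm_of_nonneg hΛ.le, div_self hΛ.ne']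
  have hη0 : η ≠ 0 := fun h0 => by rw [h0, norm_zero] at hηn; exact absurd hηn (by norm_num)
  have hT0c : (∏ j ∈ T₀, ξ j) ≠ 0 := fun h0 => hη0 (by rw [hη, h0, zero_div])
  refine ⟨η, hηn, fun V y hy hw => ?_⟩
  have hMV : 1 ≤ M ^ V := Nat.one_le_pow V M hM
  have hyn : ‖y‖ = 1 := Complex.norm_eq_one_of_pow_eq_one hy (by omega)
  have hexp : (fun n => wq ξ a n * (η⁻¹ * y) ^ n) = fun n => ∑ T : Finset ι, (-1 : ℂ) ^ (univ \ T).card *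
      (a n * ((∏ j ∈ T, ξ j) / (Lam0 ξ : ℂ) * (η⁻¹ * y)) ^ n) := by
    funext n; exact wq_expand ξ a _ n
  have hnorm : ∀ T : Finset ι, ‖(∏ j ∈ T, ξ j) / (Lam0 ξ : ℂ) * (η⁻¹ * y)‖ ≤ 1 := by
    intro T
    rw [norm_mul, norm_mul, norm_inv, hηn, hyn, inv_one, mul_one, mul_one, norm_div, Complex.norm_real,
      Real.norm_of_nonneg hΛ.le, div_le_one hΛ]
    exact norm_le_Lam0 ξ T
  -- the other terms
  have hoth : ∀ T : Finset ι, T ≠ T₀ →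
      Ab (fun n => a n * ((∏ j ∈ T, ξ j) / (Lam0 ξ : ℂ) * (η⁻¹ * y)) ^ n) 0 := by
    intro T hT
    rcases lt_or_eq_of_le (norm_le_Lam0 ξ T) with hlt | heq
    · obtain ⟨C, hC⟩ := h.bdd hM
      have h1 : ‖(∏ j ∈ T, ξ j) / (Lam0 ξ : ℂ) * (η⁻¹ * y)‖ < 1 := by
        rw [norm_mul, norm_mul, norm_inv, hηn, hyn, inv_one, mul_one, mul_one, norm_div,
          Complex.norm_real, Real.norm_of_nonneg hΛ.le, div_lt_one hΛ]
        exact hlt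
      refine Ab.geom (norm_nonneg _) h1 (C := C) fun n => ?_
      rw [norm_mul, norm_pow]
      exact mul_le_mul_of_nonneg_right (hC n) (by positivity)
    · refine h.mean_zero hM (hnorm T) fun W hW => ?_
      have h1 : (((∏ j ∈ T, ξ j) / (Lam0 ξ : ℂ) * (η⁻¹ * y)) ^ (M ^ W)) ^ (M ^ V) = 1 := by
        rw [hW, one_pow]
      rw [← pow_mul] at h1
      have h2 : (∏ j ∈ T, ξ j) / (Lam0 ξ : ℂ) * (η⁻¹ * y) =
          (∏ j ∈ T, ξ j) / (∏ j ∈ T₀, ξ j) * y := by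
        rw [hη]; field_simp
      rw [h2, mul_pow] at h1
      have h3 : y ^ (M ^ W * M ^ V) = 1 := by rw [mul_comm, pow_mul, hy, one_pow]
      rw [h3, mul_one, div_pow, div_eq_one_iff_eq (pow_ne_zero _ hT0c)] at h1
      refine hdom T hT heq (M ^ W * M ^ V) ?_ h1
      exact Nat.mul_pos (Nat.one_le_pow W M hM) hMV
  have hself : (∏ j ∈ T₀, ξ j) / (Lam0 ξ : ℂ) * (η⁻¹ * y) = y := by
    rw [← hη, ← mul_assoc, mul_inv_cancel₀ hη0, one_mul]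
  obtain ⟨L, hL⟩ := h.mean_exists hM hyn.le
  -- total
  have hb : ∀ T : Finset ι, Bdd (fun n => (-1 : ℂ) ^ (univ \ T).card *
      (a n * ((∏ j ∈ T, ξ j) / (Lam0 ξ : ℂ) * (η⁻¹ * y)) ^ n)) := fun T =>
    Bdd.smul _ ((h.bdd hM).mul (Bdd.pow (hnorm T)))
  have htot : Ab (fun n => wq ξ a n * (η⁻¹ * y) ^ n)
      (∑ T : Finset ι, (-1 : ℂ) ^ (univ \ T).card * (if T = T₀ then L else 0)) := by
    rw [hexp]
    refine Ab.sum _ (fun T _ => hb T) fun T _ => Ab.smul _ ?_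
    split_ifs with hT
    · subst hT; rw [hself]; exact hL
    · exact hoth T hT
  have h1 := htot.unique hw
  simp only [mul_ite, mul_zero, sum_ite_eq', mem_univ, if_true] at h1
  have h2 : L = 0 := by
    rcases mul_eq_zero.1 h1 with h3 | h3
    · exact absurd h3 (pow_ne_zero _ (by norm_num))
    · exact h3
  rw [h2] at hL
  exact hL

/-- the normalised coefficients do not decay geometrically -/
theorem no_decay {ι : Type*} [Fintype ι] (ξ : ι → ℂ) (hξ : ∀ j, ∀ m : ℕ, 1 ≤ m → ξ j ^ m ≠ 1)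
    {a : ℕ → ℂ} {M : ℕ} (hM : 1 ≤ M) (h : Appr a M) (ha : a 1 ≠ 0) {C θ : ℝ} (hθ0 : 0 ≤ θ)
    (hθ : θ < 1) : ¬ ∀ n, ‖wq ξ a n‖ ≤ C * θ ^ n := by
  intro hw
  obtain ⟨η, hη, hlink⟩ := link ξ hξ hM h
  refine ha (h.lp.eq_zero hM (h.bdd hM) (fun V y hy => hlink V y hy ?_) 1 le_rfl)
  have hyn : ‖y‖ = 1 := Complex.norm_eq_one_of_pow_eq_one hy (by
    have := Nat.one_le_pow V M hM; omega)
  refine Ab.geom hθ0 hθ (C := C) fun n => ?_
  rw [norm_mul, norm_pow, norm_mul, norm_inv, hη, hyn]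
  simpa using hw n

/-- vanishing on a punctured arc forces the limit periodic factor to be periodic -/
theorem periodic_of_arc {ι : Type*} [Fintype ι] (ξ : ι → ℂ) (hξ : ∀ j, ∀ m : ℕ, 1 ≤ m → ξ j ^ m ≠ 1)
    {a : ℕ → ℂ} {M : ℕ} (hM : 1 ≤ M) (h : Appr a M) {z0 : ℂ} (hz0 : ‖z0‖ = 1) {δ : ℝ} (hδ : 0 < δ)
    (harc : ∀ y : ℂ, ‖y‖ = 1 → y ≠ z0 → ‖y - z0‖ < δ → Ab (fun n => wq ξ a n * y ^ n) 0) :
    ∃ V₀, ∀ m n, 1 ≤ m → 1 ≤ n → m ≡ n [MOD M ^ V₀] → a m = a n := by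
  obtain ⟨η, hη, hlink⟩ := link ξ hξ hM h
  have hη0 : η ≠ 0 := fun h0 => by rw [h0, norm_zero] at hη; exact absurd hη (by norm_num)
  refine h.periodic_of_arc hM (z0 := η * z0) (by rw [norm_mul, hη, hz0, one_mul]) hδ
    fun y hy hy1 hy2 V hyV => hlink V y hyV (harc _ ?_ ?_ ?_)
  · rw [norm_mul, norm_inv, hη, hy]; norm_num
  · intro h1
    apply hy1
    rw [← h1, ← mul_assoc, mul_inv_cancel₀ hη0, one_mul]
  · have h1 : η⁻¹ * y - z0 = η⁻¹ * (y - η * z0) := by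
      rw [mul_sub, ← mul_assoc, inv_mul_cancel₀ hη0, one_mul]
    rw [h1, norm_mul, norm_inv, hη, inv_one, one_mul]
    exact hy2

end Pool.Agent.R310.FAD
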