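import Pool.Agent.R310.FAD.Cong
import Pool.Agent.R310.FAD.AsmB

/-! In the purely gcd case the constant `c` is rational. -/

set_option autoImplicit false

open Filter Topology Finset

namespace Pool.Agent.R310.FAD

lemma GcdSeq.coprime_eq {a : ℕ → ℝ} {N : ℕ} (h : GcdSeq a N) {n : ℕ} (hn : 1 ≤ n)
    (hc : Nat.Coprime n N) : a n = a 1 := by
  rw [h.2 n hn, hc, h.2 1 le_rfl, Nat.gcd_one_left]

theorem c_rational {F : ℕ → ℕ} {D : ℕ → ℤ} {c : ℝ} (hc : 0 < c) {r σ : ℕ → ℝ} {N : ℕ}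
    (hr : ∀ n, 1 ≤ n → 0 < r n) (hrN : GcdSeq r N) (hσ : GcdSeq σ 2)
    (hσ1 : ∀ n, 1 ≤ n → σ n = 1 ∨ σ n = -1)
    (hσD : ∀ n, 1 ≤ n → |(D n : ℝ)| = σ n * (D n : ℝ)) (hD : ∀ n, 1 ≤ n → D n ≠ 0)
    (hF : ∀ n, 1 ≤ n → (F n : ℝ) = |(D n : ℝ)| * c ^ n * r n)
    (hFq : ∀ q : ℕ, q.Prime → F q ≡ F 1 [MOD q])
    (hDq : ∀ q : ℕ, q.Prime → ((D q : ℤ) : ZMod q) = ((D 1 : ℤ) : ZMod q)) :
    ∃ x : ℚ, c = x := by
  have hN1 := hrN.1
  have hFpos : ∀ n, 1 ≤ n → 0 < F n := by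
    intro n hn
    have h1 : (0 : ℝ) < F n := by
      rw [hF n hn]
      have h2 : 0 < |(D n : ℝ)| := abs_pos.2 (by exact_mod_cast hD n hn)
      have h3 := hr n hn
      positivity
    exact_mod_cast h1
  have hDabs : ∀ n, ((D n).natAbs : ℝ) = |(D n : ℝ)| := by
    intro n
    have : ((D n).natAbs : ℤ) = |D n| := Int.natCast_natAbs (D n)
    have h2 : (((D n).natAbs : ℤ) : ℝ) = ((|D n| : ℤ) : ℝ) := by rw [this]
    rw [Int.cast_natCast, Int.cast_abs] at h2
    exact h2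
  have hcop1 : Nat.Coprime (2 * N + 1) N := by
    rw [Nat.coprime_comm]
    simp [Nat.coprime_mul_right_add_right]
  have hcop2 : Nat.Coprime (2 * N - 1) N := by
    rw [Nat.coprime_comm]
    have h1 : N ∣ (2 * N - 1) + 1 := ⟨2, by omega⟩
    have h2 : Nat.Coprime ((2 * N - 1) + 1) (2 * N - 1) := by simp
    exact Nat.Coprime.coprime_dvd_left h1 h2
  have hr1 := hrN.coprime_eq (by omega) hcop1
  have hr2 := hrN.coprime_eq (by omega) hcop2
  set α : ℕ := F (2 * N + 1) * (D (2 * N - 1)).natAbs with hα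
  set β : ℕ := F (2 * N - 1) * (D (2 * N + 1)).natAbs with hβ
  have hα0 : 0 < α := Nat.mul_pos (hFpos _ (by omega)) (Int.natAbs_pos.2 (hD _ (by omega)))
  have hβ0 : 0 < β := Nat.mul_pos (hFpos _ (by omega)) (Int.natAbs_pos.2 (hD _ (by omega)))
  have hcc : c ^ 2 * β = α := by
    rw [hα, hβ]; push_cast
    rw [hF (2 * N + 1) (by omega), hF (2 * N - 1) (by omega), hr1, hr2]
    rw [hDabs, hDabs]
    have h1 : c ^ (2 * N + 1) = c ^ 2 * c ^ (2 * N - 1) := by
      rw [← pow_add]; congr 1; omega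
    rw [h1]; ring
  by_cases hsq : IsSquare (α * β)
  · obtain ⟨m, hm⟩ := hsq
    have hβr : (0 : ℝ) < β := by exact_mod_cast hβ0
    have h1 : (c * β) ^ 2 = (m : ℝ) ^ 2 := by
      have h2 : ((α * β : ℕ) : ℝ) = ((m * m : ℕ) : ℝ) := by rw [hm]
      push_cast at h2
      linear_combination (β : ℝ) * hcc + h2
    have h2 : c * β = m := by
      have h3 := abs_eq_abs.2 (sq_eq_sq_iff_eq_or_eq_neg.1 h1)
      rw [abs_of_pos (by positivity), abs_of_nonneg (Nat.cast_nonneg m)] at h3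
      exact h3
    refine ⟨(m : ℚ) / β, ?_⟩
    push_cast
    rw [eq_div_iff hβr.ne', h2]
  · exfalso
    obtain ⟨q, hqB, hqp, hqo, hqpow⟩ := exists_inert_prime (α * β) hsq
      (α + β + F 1 + (D 1).natAbs + N + 2)
    have hfact : Fact q.Prime := ⟨hqp⟩
    have hqN : Nat.Coprime q N := by
      rw [hqp.coprime_iff_not_dvd]
      intro h
      have := Nat.le_of_dvd (by omega) h
      omega
    have hrq := hrN.coprime_eq hqp.one_le hqN
    have hσq : σ q = σ 1 := by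
      refine hσ.coprime_eq hqp.one_le ?_
      rw [Nat.coprime_comm, Nat.coprime_two_left]; exact hqo
    set h := q / 2 with hh
    have hq2 : q = 2 * h + 1 := by
      have := Nat.odd_iff.1 hqo; omega
    have hint : (F q : ℤ) * D 1 * (β : ℤ) ^ h = D q * (α : ℤ) ^ h * F 1 := by
      have hcα : c ^ (2 * h) * (β : ℝ) ^ h = (α : ℝ) ^ h := by
        rw [pow_mul, ← mul_pow, hcc]
      have hσne : σ 1 ≠ 0 := by
        rcases hσ1 1 le_rfl with h1 | h1 <;> rw [h1] <;> norm_num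
      have h2 : (F q : ℝ) * |(D 1 : ℝ)| * (β : ℝ) ^ h = |(D q : ℝ)| * (α : ℝ) ^ h * F 1 := by
        rw [hF q hqp.one_le, hF 1 le_rfl, hrq, ← hcα]
        have h3 : c ^ q = c ^ (2 * h) * c := by rw [← pow_succ, ← hq2]
        rw [h3]; ring
      rw [hσD q hqp.one_le, hσD 1 le_rfl, hσq] at h2
      have h3 : (F q : ℝ) * (D 1 : ℝ) * (β : ℝ) ^ h = (D q : ℝ) * (α : ℝ) ^ h * F 1 := by
        apply mul_left_cancel₀ hσne
        linear_combination h2
      exact_mod_cast h3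
    have hz := congrArg (fun x : ℤ => (x : ZMod q)) hint
    simp only [Int.cast_mul, Int.cast_pow, Int.cast_natCast] at hz
    rw [hDq q hqp, (ZMod.natCast_eq_natCast_iff _ _ _).2 (hFq q hqp)] at hz
    have hF1 : ((F 1 : ℕ) : ZMod q) ≠ 0 := by
      rw [Ne, ZMod.natCast_eq_zero_iff]
      intro hdv
      have := Nat.le_of_dvd (hFpos 1 le_rfl) hdv
      omega
    have hD1 : ((D 1 : ℤ) : ZMod q) ≠ 0 := by
      rw [Ne, ZMod.intCast_zmod_eq_zero_iff_dvd]
      intro hdv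
      have h1 := Int.natAbs_dvd_natAbs.2 hdv
      rw [Int.natAbs_natCast] at h1
      have := Nat.le_of_dvd (Int.natAbs_pos.2 (hD 1 le_rfl)) h1
      omega
    have hα1 : ((α : ℕ) : ZMod q) ≠ 0 := by
      rw [Ne, ZMod.natCast_eq_zero_iff]
      intro hdv
      have := Nat.le_of_dvd hα0 hdv
      omega
    have hαβ : ((β : ℕ) : ZMod q) ^ h = ((α : ℕ) : ZMod q) ^ h := by
      apply mul_left_cancel₀ (mul_ne_zero hF1 hD1)
      linear_combination hz
    have h1 : (((α * β : ℕ)) : ZMod q) ^ (q / 2) = 1 := by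
      rw [← hh, Nat.cast_mul, mul_pow, hαβ, ← pow_add]
      have h2 : h + h = q - 1 := by omega
      rw [h2]
      exact ZMod.pow_card_sub_one_eq_one hα1
    rw [h1] at hqpow
    have h2 : (2 : ZMod q) = 0 := by linear_combination hqpow
    have h3 : ((2 : ℕ) : ZMod q) = 0 := by exact_mod_cast h2
    rw [ZMod.natCast_eq_zero_iff] at h3
    have := Nat.le_of_dvd (by norm_num) h3
    omega

end Pool.Agent.R310.FAD
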